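import Pool.Agent.Lib.PadicQE.QE

namespace Pool.Agent.Lib.PadicQE

variable {p : ℕ} [hp : Fact p.Prime]

/-- The ball of radius `p ^ (-ρ)` around the integer `t` is a maximal ball of integers in `Z`. -/
def MaxBall (Z : Set ℚ_[p]) (ρ : ℤ) (t : ℚ_[p]) : Prop :=
  0 ≤ ρ ∧ ‖t‖ ≤ 1 ∧ (∀ t', ‖t' - t‖ ≤ (p : ℝ) ^ (-ρ) → t' ∈ Z) ∧
    (ρ = 0 ∨ ∃ t', ‖t' - t‖ ≤ (p : ℝ) ^ (-(ρ - 1)) ∧ t' ∉ Z)

/-- `Z` contains `k` points at mutual distance more than `p ^ (-ρ)`. -/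
def Many (Z : Set ℚ_[p]) (ρ : ℤ) (k : ℕ) : Prop :=
  ∃ T : Finset ℚ_[p], T.card = k ∧ (∀ t ∈ T, t ∈ Z) ∧
    ∀ t ∈ T, ∀ t' ∈ T, t ≠ t' → (p : ℝ) ^ (-ρ) < ‖t - t'‖

theorem balls_tri {x y z : ℚ_[p]} {r : ℝ} (h1 : ‖x - y‖ ≤ r) (h2 : ‖y - z‖ ≤ r) : ‖x - z‖ ≤ r := by
  rw [← sub_add_sub_cancel x y z]
  exact (Padic.nonarchimedean _ _).trans (max_le h1 h2)

theorem balls_many_succ (Z : Set ℚ_[p]) (ρ : ℤ) (k : ℕ) : Many Z ρ (k + 1) ↔
    ∃ t ∈ Z, Many {t' | t' ∈ Z ∧ ¬‖t' - t‖ ≤ (p : ℝ) ^ (-ρ)} ρ k := by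
  classical
  constructor
  · rintro ⟨T, h1, h2, h3⟩
    obtain ⟨t, ht⟩ : T.Nonempty := Finset.card_pos.1 (by omega)
    refine ⟨t, h2 t ht, T.erase t, by rw [Finset.card_erase_of_mem ht, h1]; rfl, fun u hu => ?_,
      fun u hu u' hu' => h3 u (Finset.mem_of_mem_erase hu) u' (Finset.mem_of_mem_erase hu')⟩
    obtain ⟨a, b⟩ := Finset.mem_erase.1 hu
    exact ⟨h2 u b, not_le.2 (h3 u b t ht a)⟩
  · rintro ⟨t, ht, T, h1, h2, h3⟩
    have h4 : t ∉ T := fun h => (h2 t h).2 (by rw [sub_self, norm_zero]; positivity)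
    refine ⟨insert t T, by rw [Finset.card_insert_of_notMem h4, h1], fun u hu => ?_,
      fun u hu u' hu' h => ?_⟩
    · rcases Finset.mem_insert.1 hu with rfl | hu
      exacts [ht, (h2 u hu).1]
    · rcases Finset.mem_insert.1 hu with e | hu <;> rcases Finset.mem_insert.1 hu' with e' | hu'
      · exact absurd (e.trans e'.symm) h
      · rw [e, norm_sub_rev]; exact not_le.1 (h2 u' hu').2
      · rw [e']; exact not_le.1 (h2 u hu).2
      · exact h3 u hu u' hu' h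

theorem balls_near {B M : Type} [AddCommMonoid M] [AddMonoid.FG M] {F : Subring (B → ℚ_[p])}
    (κ : M →+ ℤ) (c : ℤ) : Def p (adj p (adj p F) : Set ((B × ℚ_[p]) × ℚ_[p] → ℚ_[p]))
      {x : ((B × ℚ_[p]) × ℚ_[p]) × M | ‖x.1.2 - x.1.1.2‖ ≤ (p : ℝ) ^ (-(κ x.2 + c))} :=
  ((DefFun.of_mem DefSet.univ (sub_mem snd_mem_adj (fst_mem_adj snd_mem_adj) :
    (fun x : (B × ℚ_[p]) × ℚ_[p] => x.2 - x.1.2) ∈ adj p (adj p F))).norm_le
      (DefFun.const DefSet.univ 1) κ c).congr fun _ _ => by simp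

theorem balls_lift {B M M' : Type} [AddCommMonoid M] [AddCommMonoid M'] [AddMonoid.FG M']
    {F : Subring (B → ℚ_[p])} {X : Set ((B × ℚ_[p]) × M)}
    (hX : Def p (adj p F : Set (B × ℚ_[p] → ℚ_[p])) X) (κ : M' →+ M) :
    Def p (adj p (adj p F) : Set ((B × ℚ_[p]) × ℚ_[p] → ℚ_[p]))
      {x : ((B × ℚ_[p]) × ℚ_[p]) × M' | ((x.1.1.1, x.1.2), κ x.2) ∈ X} :=
  hX.comap (fun y : (B × ℚ_[p]) × ℚ_[p] => (y.1.1, y.2)) κ
    (adj_comp _ (fun _ hf => fst_mem_adj (fst_mem_adj hf)) snd_mem_adj)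

theorem balls_cover {C T : Finset ℚ_[p]} {E : ℕ} {ρ : ℤ}
    (h1 : ∀ t ∈ T, ∃ c ∈ C, ‖t - c‖ ≤ (p : ℝ) ^ ((E : ℤ) - ρ))
    (h2 : ∀ t ∈ T, ∀ t' ∈ T, t ≠ t' → (p : ℝ) ^ (-ρ) < ‖t - t'‖) : T.card ≤ C.card * p ^ E := by
  have hp0 := p_pos (p := p)
  have h3 : ∀ t ∈ T, ∃ z : ℚ_[p] × ℕ, z ∈ C ×ˢ Finset.range (p ^ E) ∧
      ‖(t - z.1) * (p : ℚ_[p]) ^ ((E : ℤ) - ρ) - z.2‖ ≤ (p : ℝ) ^ (-(E : ℤ)) := by
    intro t ht
    obtain ⟨c, hc, h⟩ := h1 t ht
    obtain ⟨a, ha, h'⟩ := exists_nat_near ((t - c) * (p : ℚ_[p]) ^ ((E : ℤ) - ρ)) (by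
      rw [norm_mul, Padic.norm_p_zpow, zpow_neg, ← div_eq_mul_inv]
      exact div_le_one_of_le₀ h (by positivity)) E
    exact ⟨(c, a), Finset.mem_product.2 ⟨hc, Finset.mem_range.2 ha⟩, h'⟩
  choose! z hz hz' using h3
  have := Finset.card_le_card_of_injOn z (fun t ht => hz t ht) fun t ht t' ht' e => by
    by_contra hne
    have a := hz' t ht
    have a' := hz' t' ht'
    rw [← e, norm_sub_rev] at a'
    have b := balls_tri a a'
    rw [← sub_mul, sub_sub_sub_cancel_right, norm_mul, Padic.norm_p_zpow,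
      ← le_div_iff₀ (by positivity), ← zpow_sub₀ hp0.ne'] at b
    refine (h2 t ht t' ht' hne).not_ge (b.trans_eq ?_)
    congr 1
    ring
  rwa [Finset.card_product, Finset.card_range] at this

theorem MaxBall.mem {Z : Set ℚ_[p]} {ρ : ℤ} {t : ℚ_[p]} (h : MaxBall Z ρ t) : t ∈ Z :=
  h.2.2.1 t (by rw [sub_self, norm_zero]; positivity)

theorem MaxBall.near {Z : Set ℚ_[p]} {ρ : ℤ} {t u : ℚ_[p]} (h : MaxBall Z ρ t)
    (hu : ‖u - t‖ ≤ (p : ℝ) ^ (-ρ)) : MaxBall Z ρ u := by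
  obtain ⟨h1, h2, h3, h4⟩ := h
  refine ⟨h1, ?_, fun t' h => h3 t' (balls_tri h hu), h4.imp_right ?_⟩
  · have := balls_tri (z := 0) (hu.trans (zpow_le_one_of_nonpos₀ one_lt_p.le (by omega)))
      (by rwa [sub_zero])
    rwa [sub_zero] at this
  · rintro ⟨t', a, b⟩
    refine ⟨t', balls_tri a ?_, b⟩
    rw [norm_sub_rev]
    exact hu.trans (zpow_le_zpow_right₀ one_lt_p.le (by omega))

theorem MaxBall.unique {Z : Set ℚ_[p]} {ρ ρ' : ℤ} {t : ℚ_[p]} (h : MaxBall Z ρ t)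
    (h' : MaxBall Z ρ' t) : ρ = ρ' := by
  have key : ∀ {ρ ρ' : ℤ}, MaxBall Z ρ t → MaxBall Z ρ' t → ¬ρ < ρ' := by
    intro ρ ρ' h h' hl
    rcases h'.2.2.2 with e | ⟨t', a, b⟩
    · have := h.1; omega
    · exact b (h.2.2.1 t' (a.trans (zpow_le_zpow_right₀ one_lt_p.le (by omega))))
  exact le_antisymm (not_lt.1 (key h' h)) (not_lt.1 (key h h'))

theorem balls_exists {Z : Set ℚ_[p]} {L : ℕ} {t : ℚ_[p]} (ht : ‖t‖ ≤ 1)
    (h : ∀ t', ‖t' - t‖ ≤ (p : ℝ) ^ (-(L : ℤ)) → t' ∈ Z) : ∃ ρ ≤ L, MaxBall Z ρ t := by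
  induction L with
  | zero => exact ⟨0, le_rfl, le_rfl, ht, h, Or.inl rfl⟩
  | succ L ih =>
    by_cases h1 : ∀ t', ‖t' - t‖ ≤ (p : ℝ) ^ (-(L : ℤ)) → t' ∈ Z
    · obtain ⟨ρ, a, b⟩ := ih h1
      exact ⟨ρ, by omega, b⟩
    · push Not at h1
      exact ⟨L + 1, le_rfl, by omega, ht, h, Or.inr (by simpa using h1)⟩

theorem balls_count {P : ℕ → Prop} [DecidablePred P] {q : ℕ} (h : Function.Periodic P q) (m : ℕ) :
    Nat.count P (m * q) = m * Nat.count P q := by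
  induction m with
  | zero => simp
  | succ m ih =>
    rw [Nat.succ_mul, Nat.succ_mul, Nat.count_add, ih]
    congr 2
    funext k
    rw [add_comm]
    exact h.nat_mul m k

open Classical in
theorem balls_many_iff (Z : Set ℚ_[p]) (ρ k : ℕ) : Many {t | MaxBall Z ρ t} ρ k ↔
    k ≤ Nat.count (fun a : ℕ => MaxBall Z ρ (a : ℚ_[p])) (p ^ ρ) := by
  rw [Nat.count_eq_card_filter_range]
  constructor
  · rintro ⟨T, rfl, h2, h3⟩
    choose! a ha ha' using fun t (ht : t ∈ T) => exists_nat_near t (h2 t ht).2.1 ρ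
    refine Finset.card_le_card_of_injOn a (fun t ht => ?_) fun t ht t' ht' e => ?_
    · exact Finset.mem_coe.2 (Finset.mem_filter.2 ⟨Finset.mem_range.2 (ha t ht),
        MaxBall.near (h2 t ht) (by rw [norm_sub_rev]; exact ha' t ht)⟩)
    · by_contra hne
      have b := ha' t' ht'
      rw [← e, norm_sub_rev] at b
      exact (h3 t ht t' ht' hne).not_ge (balls_tri (ha' t ht) b)
  · intro h
    obtain ⟨R, hR, rfl⟩ := Finset.exists_subset_card_eq h
    refine ⟨R.image fun a : ℕ => (a : ℚ_[p]), Finset.card_image_of_injective _ Nat.cast_injective,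
      fun t ht => ?_, fun t ht t' ht' hne => ?_⟩
    · obtain ⟨a, ha, rfl⟩ := Finset.mem_image.1 ht
      exact (Finset.mem_filter.1 (hR ha)).2
    · obtain ⟨a, ha, rfl⟩ := Finset.mem_image.1 ht
      obtain ⟨a', ha', rfl⟩ := Finset.mem_image.1 ht'
      refine not_le.1 fun hle => hne ?_
      have b := (Padic.norm_int_le_pow_iff_dvd (p := p) ((a : ℤ) - a') ρ).1 (by
        push_cast; exact hle)
      have c := Finset.mem_range.1 (Finset.mem_filter.1 (hR ha)).1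
      have c' := Finset.mem_range.1 (Finset.mem_filter.1 (hR ha')).1
      rw [Nat.ModEq.eq_of_lt_of_lt (Nat.modEq_iff_dvd.2 (by exact_mod_cast b)) c' c]

variable {B M : Type} [AddCommMonoid M] [AddMonoid.FG M] {F : Subring (B → ℚ_[p])}
  {X : Set ((B × ℚ_[p]) × M)}

theorem def_many (hX : Def p (adj p F : Set (B × ℚ_[p] → ℚ_[p])) X) (ρ : M →+ ℤ) (k : ℕ) :
    Def p (F : Set (B → ℚ_[p])) {x : B × M | Many {t | ((x.1, t), x.2) ∈ X} (ρ x.2) k} := by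
  induction k generalizing B with
  | zero => exact Def.univ.congr fun _ _ => iff_of_true ⟨∅, rfl, by simp, by simp⟩ trivial
  | succ k ih =>
    have h1 := ih ((balls_lift hX (AddMonoidHom.id M)).and (balls_near ρ 0).not)
    refine (qe (hX.inter h1)).congr fun b n => ?_
    simp only [Set.mem_ofPred_eq, balls_many_succ, Set.mem_inter_iff, AddMonoidHom.id_apply,
      add_zero]

theorem def_maxBall (hX : Def p (adj p F : Set (B × ℚ_[p] → ℚ_[p])) X) :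
    Def p (adj p F : Set (B × ℚ_[p] → ℚ_[p])) {x : (B × ℚ_[p]) × M × ℤ |
      MaxBall {t | ((x.1.1, t), x.2.1) ∈ X} x.2.2 x.1.2} := by
  have h0 := (balls_lift hX (AddMonoidHom.fst M ℤ)).not
  have h1 := qe ((balls_near (AddMonoidHom.snd M ℤ) 0).and h0)
  have h2 := qe ((balls_near (AddMonoidHom.snd M ℤ) (-1)).and h0)
  have h3 := (DefFun.of_mem DefSet.univ (snd_mem_adj (G := F))).norm_le' (M := M × ℤ)
    (DefFun.const DefSet.univ 1) 0
  refine ((Def.nonneg (AddMonoidHom.snd M ℤ) 0).and (h3.and (h1.not.and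
    ((Def.nonneg (-AddMonoidHom.snd M ℤ) 0).or h2)))).congr fun b n => ?_
  simp only [Set.mem_ofPred_eq, MaxBall, AddMonoidHom.coe_snd, AddMonoidHom.coe_fst, add_zero,
    Set.mem_univ, true_and, zpow_zero, norm_one, mul_one, AddMonoidHom.neg_apply, not_exists,
    not_and, not_not, ← sub_eq_add_neg]
  refine and_congr_right fun h => and_congr_right fun _ => and_congr_right fun _ =>
    or_congr_left ?_
  omega

open Polynomial in
theorem few_balls (hX : Def p (adj p F : Set (B × ℚ_[p] → ℚ_[p])) X) : ∃ K : ℕ, ∀ b n ρ k,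
    Many {t | MaxBall {t | ((b, t), n) ∈ X} ρ t} ρ k → k ≤ K := by
  classical
  obtain ⟨σ, _, f, N, S, h1, -, h3⟩ := hX
  choose P hP using fun i => mem_adj_iff.1 (h1 i)
  obtain ⟨d, hd⟩ := Finite.exists_le fun i => (P i).natDegree
  obtain ⟨e, he⟩ := prep p d
  have := Fintype.ofFinite σ
  refine ⟨(Fintype.card σ * ((d + 1) * d) + 1) * p ^ (N + e + 1), ?_⟩
  rintro b n ρ _ ⟨T, rfl, h4, h5⟩
  let Q : σ → ℚ_[p][X] := fun i => (P i).map (ev p F b)
  have hQ : ∀ i, (Q i).natDegree ≤ d := fun i => natDegree_map_le.trans (hd i)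
  let C : Finset ℚ_[p] := insert 0 (Finset.univ.biUnion fun i => (Finset.range (d + 1)).biUnion
    fun j => (hasseDeriv j (Q i)).roots.toFinset)
  have hC : C.card ≤ Fintype.card σ * ((d + 1) * d) + 1 := by
    refine (Finset.card_insert_le _ _).trans (Nat.succ_le_succ ?_)
    refine Finset.card_biUnion_le_card_mul _ _ _ fun i _ => ?_
    refine (Finset.card_biUnion_le_card_mul _ _ d fun j _ => ?_).trans_eq (by simp)
    exact (Multiset.toFinset_card_le _).trans ((card_roots' _).trans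
      ((natDegree_hasseDeriv_le _ _).trans ((Nat.sub_le _ _).trans (hQ i))))
  refine (balls_cover (C := C) (E := N + e + 1) (fun t ht => ?_) h5).trans
    (Nat.mul_le_mul_right _ hC)
  have ht' : MaxBall {t | ((b, t), n) ∈ X} ρ t := h4 t ht
  rcases ht'.2.2.2 with rfl | ⟨t', a1, a2⟩
  · refine ⟨0, Finset.mem_insert_self _ _, ?_⟩
    rw [sub_zero]
    exact ht'.2.1.trans (one_le_zpow₀ one_lt_p.le (by omega))
  obtain ⟨c, hc, hc'⟩ := C.exists_min_image (fun c => ‖t - c‖) ⟨0, Finset.mem_insert_self _ _⟩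
  refine ⟨c, hc, ?_⟩
  by_contra hlt
  rw [Padic.norm_le_pow_iff_norm_lt_pow_add_one, not_lt] at hlt
  refine a2 ((h3 (b, t') n).2 ?_)
  have a3 := (h3 (b, t) n).1 ht'.mem
  convert a3 using 3 with i
  have a4 := he (Q i) (hQ i) 0 c t fun j _ hj r hr => hc' r (Finset.mem_insert_of_mem
    (Finset.mem_biUnion.2 ⟨i, Finset.mem_univ _, Finset.mem_biUnion.2 ⟨j, Finset.mem_range.2 (by
      by_contra h
      exact hj (hasseDeriv_eq_zero_of_lt_natDegree _ _ (by have := hQ i; omega))),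
      Multiset.mem_toFinset.2 ((mem_roots hj).2 hr)⟩⟩))
  have a5 := code_stable p (Q i) c (t - c) (t' - c) e N (N + e) le_rfl
    (fun j => by simpa using a4 j (Nat.zero_le _)) (by
      rw [sub_sub_sub_cancel_right]
      refine a1.trans (le_trans (le_of_eq ?_)
        (mul_le_mul_of_nonneg_left hlt (zpow_nonneg p_pos.le _)))
      rw [← zpow_add₀ p_pos.ne']
      congr 1
      push_cast
      ring)
  rw [hP i]
  simpa using a5

open Classical in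
theorem card_eq_sum (Z : Set ℚ_[p]) (L K : ℕ)
    (hZ : ∀ t t' : ℚ_[p], ‖t‖ ≤ 1 → ‖t - t'‖ ≤ (p : ℝ) ^ (-(L : ℤ)) → t ∈ Z → t' ∈ Z)
    (hK : ∀ ρ k, Many {t | MaxBall Z ρ t} ρ k → k ≤ K) :
    Nat.card {a : Fin (p ^ L) // ((a : ℕ) : ℚ_[p]) ∈ Z} =
      ∑ ρ ∈ Finset.range (L + 1), ∑ k ∈ Finset.range K,
        if Many {t | MaxBall Z ρ t} ρ (k + 1) then p ^ (L - ρ) else 0 := by
  have h1 : Nat.card {a : Fin (p ^ L) // ((a : ℕ) : ℚ_[p]) ∈ Z} =
      ∑ a ∈ Finset.range (p ^ L), if (a : ℚ_[p]) ∈ Z then 1 else 0 := by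
    rw [Nat.card_eq_fintype_card, Fintype.card_subtype, Finset.card_filter, Finset.sum_range]
  have h2 : ∀ a : ℕ, (if (a : ℚ_[p]) ∈ Z then 1 else 0) =
      ∑ ρ ∈ Finset.range (L + 1), if MaxBall Z ρ (a : ℚ_[p]) then 1 else 0 := by
    intro a
    split_ifs with h
    · have ha : ‖(a : ℚ_[p])‖ ≤ 1 := by exact_mod_cast Padic.norm_int_le_one (p := p) (a : ℤ)
      obtain ⟨ρ, a1, a2⟩ := balls_exists (L := L) ha fun t' h' =>
        hZ _ _ ha (by rwa [norm_sub_rev]) h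
      rw [Finset.sum_eq_single_of_mem ρ (Finset.mem_range.2 (by omega)), if_pos a2]
      exact fun ρ' _ hne => if_neg fun h' => hne (by exact_mod_cast h'.unique a2)
    · exact (Finset.sum_eq_zero fun ρ _ => if_neg fun h' => h h'.mem).symm
  rw [h1]
  simp only [h2]
  rw [Finset.sum_comm]
  refine Finset.sum_congr rfl fun ρ hρ => ?_
  have hρ' : ρ ≤ L := Nat.lt_succ_iff.1 (Finset.mem_range.1 hρ)
  have h3 : Function.Periodic (fun a : ℕ => MaxBall Z ρ (a : ℚ_[p])) (p ^ ρ) := fun a => by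
    have e : ‖((a + p ^ ρ : ℕ) : ℚ_[p]) - a‖ ≤ (p : ℝ) ^ (-(ρ : ℤ)) := by
      push_cast
      rw [add_sub_cancel_left, Padic.norm_p_pow]
    exact propext ⟨fun h => h.near (by rwa [norm_sub_rev]), fun h => h.near e⟩
  have h4 := hK ρ _ ((balls_many_iff Z ρ _).2 le_rfl)
  rw [← Finset.card_filter, ← Nat.count_eq_card_filter_range,
    show p ^ L = p ^ (L - ρ) * p ^ ρ by rw [← pow_add, Nat.sub_add_cancel hρ'], balls_count h3]
  simp only [balls_many_iff]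
  generalize Nat.count (fun a : ℕ => MaxBall Z ρ (a : ℚ_[p])) (p ^ ρ) = c at h4
  rw [← Finset.sum_filter, Finset.sum_const, smul_eq_mul, mul_comm]
  congr 1
  rw [show (Finset.range K).filter (fun k => k + 1 ≤ c) = Finset.range c by
    ext k; simp only [Finset.mem_filter, Finset.mem_range]; omega, Finset.card_range]

end Pool.Agent.Lib.PadicQE
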