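import Pool.Agent.Lib.PadicQE.Defs

/-!
Closure properties of definable sets and of functions with definable leading terms.
-/

namespace Pool.Agent.Lib.PadicQE

variable {p : ℕ} [hp : Fact p.Prime] {N N' : ℕ}

theorem p_pos : (0 : ℝ) < p := by exact_mod_cast hp.out.pos

theorem one_lt_p : (1 : ℝ) < p := by exact_mod_cast hp.out.one_lt

theorem code_eq_iff {x y : ℚ_[p]} :
    code p N x = code p N y ↔ ‖x - y‖ ≤ (p : ℝ) ^ (-((N : ℤ) + 1)) * ‖y‖ :=
  Additive.ofMul.injective.eq_iff.trans (con p N).eq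

theorem code_mul (x y : ℚ_[p]) : code p N (x * y) = code p N x + code p N y := rfl

theorem code_one : code p N (1 : ℚ_[p]) = 0 := rfl

theorem code_pow (x : ℚ_[p]) (j : ℕ) : code p N (x ^ j) = j • code p N x := by
  induction j with
  | zero => rw [pow_zero, zero_nsmul, code_one]
  | succ j ih => rw [pow_succ, code_mul, ih, succ_nsmul]

theorem code_surj (u : RV p N) : ∃ x, code p N x = u := (con p N).mk'_surjective u.toMul

theorem norm_eq_of_code {x y : ℚ_[p]} (h : code p N x = code p N y) : ‖x‖ = ‖y‖ :=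
  norm_eq_of_near p (code_eq_iff.1 h)

theorem code_eq_zero {x : ℚ_[p]} : code p N x = code p N 0 ↔ x = 0 :=
  ⟨fun h => by simpa using norm_eq_of_code h, fun h => h ▸ rfl⟩

theorem code_mono (h : N ≤ N') {x y : ℚ_[p]} (e : code p N' x = code p N' y) :
    code p N x = code p N y :=
  code_eq_iff.2 ((code_eq_iff.1 e).trans (mul_le_mul_of_nonneg_right
    (zpow_le_zpow_right₀ one_lt_p.le (by omega)) (norm_nonneg _)))

/-- Forgetting precision. -/
noncomputable def res (h : N ≤ N') : RV p N' →+ RV p N :=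
  MonoidHom.toAdditive ((con p N').map (con p N) fun _ _ e =>
    code_eq_iff.1 (code_mono h (code_eq_iff.2 e)))

theorem res_code (h : N ≤ N') (x : ℚ_[p]) : res h (code p N' x) = code p N x := rfl

/-- The leading terms of the powers of `p`. -/
noncomputable def pw (p : ℕ) [Fact p.Prime] (N : ℕ) : ℤ →+ RV p N where
  toFun m := code p N ((p : ℚ_[p]) ^ m)
  map_zero' := by rw [zpow_zero, code_one]
  map_add' a b := by
    rw [zpow_add₀ (Nat.cast_ne_zero.2 (Fact.out : p.Prime).ne_zero), code_mul]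

theorem exists_nat_near (x : ℚ_[p]) (hx : ‖x‖ ≤ 1) (k : ℕ) :
    ∃ a : ℕ, a < p ^ k ∧ ‖x - a‖ ≤ (p : ℝ) ^ (-(k : ℤ)) := by
  refine ⟨PadicInt.appr ⟨x, hx⟩ k, PadicInt.appr_lt _ _, ?_⟩
  have := (PadicInt.norm_le_pow_iff_mem_span_pow _ k).2 (PadicInt.appr_spec k ⟨x, hx⟩)
  simpa [PadicInt.norm_def] using this

theorem exists_unit (x : ℚ_[p]) (hx : x ≠ 0) :
    ∃ a : ℕ, a < p ^ (N + 1) ∧ code p N x = pw p N x.valuation + code p N a := by
  have hp0 : (p : ℚ_[p]) ≠ 0 := Nat.cast_ne_zero.2 hp.out.ne_zero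
  have h1 : ‖x * (p : ℚ_[p]) ^ (-x.valuation)‖ = 1 := by
    rw [norm_mul, Padic.norm_p_zpow, Padic.norm_eq_zpow_neg_valuation hx,
      ← zpow_add₀ p_pos.ne']
    simp
  obtain ⟨a, ha, h2⟩ := exists_nat_near _ h1.le (N + 1)
  refine ⟨a, ha, ?_⟩
  have h3 : code p N (a : ℚ_[p]) = code p N (x * (p : ℚ_[p]) ^ (-x.valuation)) := by
    rw [code_eq_iff, h1, mul_one, norm_sub_rev]
    exact_mod_cast h2
  rw [h3]
  change _ = code p N (_ * _)
  rw [mul_left_comm, ← zpow_add₀ hp0]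
  simp

/-- The leading terms of integers. -/
def ints (p : ℕ) [Fact p.Prime] (N : ℕ) : Set (RV p N) := {u | ∃ x, ‖x‖ ≤ 1 ∧ code p N x = u}

theorem ints_eq : ints p N = (AddSubmonoid.closure
    ((fun a : ℕ => code p N (a : ℚ_[p])) '' Set.Iic (p ^ (N + 1))) : Set (RV p N)) := by
  refine Set.Subset.antisymm ?_ ?_
  · rintro _ ⟨x, hx, rfl⟩
    rcases eq_or_ne x 0 with rfl | h0
    · exact AddSubmonoid.subset_closure ⟨0, by simp, by simp⟩
    obtain ⟨a, ha, e⟩ := exists_unit (N := N) x h0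
    obtain ⟨m, hm⟩ := Int.eq_ofNat_of_zero_le ((Padic.norm_le_one_iff_val_nonneg x).1 hx)
    rw [e, hm]
    refine add_mem ?_ (AddSubmonoid.subset_closure ⟨a, ha.le, rfl⟩)
    change code p N ((p : ℚ_[p]) ^ (m : ℤ)) ∈ _
    rw [zpow_natCast, code_pow]
    refine nsmul_mem (AddSubmonoid.subset_closure ?_) m
    exact ⟨p, Nat.le_self_pow (by omega) p, rfl⟩
  · intro u hu
    induction hu using AddSubmonoid.closure_induction with
    | mem _ h =>
      obtain ⟨a, -, rfl⟩ := h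
      exact ⟨a, by exact_mod_cast Padic.norm_int_le_one (a : ℤ), rfl⟩
    | zero => exact ⟨1, by simp, rfl⟩
    | add _ _ _ _ h1 h2 =>
      obtain ⟨x, hx, rfl⟩ := h1
      obtain ⟨y, hy, rfl⟩ := h2
      exact ⟨x * y, by rw [norm_mul]; exact mul_le_one₀ hx (norm_nonneg _) hy, rfl⟩

theorem ints_semi : IsSemilinearSet (ints p N) := by
  rw [ints_eq]
  exact (IsLinearSet.closure_of_finite ((Set.finite_Iic _).image _)).isSemilinearSet

instance : AddMonoid.FG (RV p N) := by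
  refine ⟨(AddSubmonoid.fg_iff _).2 ⟨insert (pw p N (-1))
    ((fun a : ℕ => code p N (a : ℚ_[p])) '' Set.Iic (p ^ (N + 1))), ?_,
    ((Set.finite_Iic _).image _).insert _⟩⟩
  rw [eq_top_iff]
  rintro u -
  obtain ⟨x, rfl⟩ := code_surj u
  have hp0 : (p : ℚ_[p]) ≠ 0 := Nat.cast_ne_zero.2 hp.out.ne_zero
  obtain ⟨m, hm⟩ := pow_unbounded_of_one_lt ‖x‖ (one_lt_p (p := p))
  have h1 : code p N (x * (p : ℚ_[p]) ^ m) ∈ ints p N := ⟨_, by
    rw [norm_mul, norm_pow, Padic.norm_p, inv_pow, ← div_eq_mul_inv,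
      div_le_one (pow_pos p_pos _)]
    exact hm.le, rfl⟩
  have h2 : code p N x = code p N (x * (p : ℚ_[p]) ^ m) + m • pw p N (-1) := by
    rw [← map_nsmul]
    change _ = code p N (_ * _)
    rw [mul_assoc, ← zpow_natCast, ← zpow_add₀ hp0]
    simp
  rw [h2]
  rw [ints_eq] at h1
  exact add_mem (AddSubmonoid.closure_mono (Set.subset_insert _ _) h1)
    (nsmul_mem (AddSubmonoid.subset_closure (Set.mem_insert _ _)) m)

variable {B B' M M' : Type} [AddCommMonoid M] [AddCommMonoid M'] {F : Set (B → ℚ_[p])}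
  {F' : Set (B' → ℚ_[p])} {X Y : Set (B × M)} {D : Set B} {f g h : B → ℚ_[p]}

theorem Def.congr (hX : Def p F X) (e : ∀ b n, (b, n) ∈ Y ↔ (b, n) ∈ X) : Def p F Y := by
  rwa [show Y = X from Set.ext fun x => e x.1 x.2]

theorem Def.image (k : M' →+ M) {X : Set (B × M')} (hX : Def p F X) :
    Def p F {x : B × M | ∃ n', k n' = x.2 ∧ (x.1, n') ∈ X} := by
  obtain ⟨σ, _, f, N, S, h1, h2, h3⟩ := hX
  refine ⟨σ, inferInstance, f, N, _, h1, h2.image ((AddMonoidHom.id _).prodMap k), fun b n => ?_⟩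
  constructor
  · rintro ⟨n', rfl, h⟩
    exact ⟨_, (h3 b n').1 h, rfl⟩
  · rintro ⟨⟨u, n'⟩, h, e⟩
    obtain ⟨rfl, rfl⟩ := Prod.mk.inj e
    exact ⟨n', rfl, (h3 b n').2 h⟩

theorem Def.proj {X : Set (B × M × M')} (hX : Def p F X) :
    Def p F {x : B × M | ∃ n', (x.1, x.2, n') ∈ X} :=
  (hX.image (AddMonoidHom.fst M M')).congr fun _ _ =>
    ⟨fun ⟨n', h⟩ => ⟨(_, n'), rfl, h⟩, fun ⟨⟨_, n'⟩, e, h⟩ => ⟨n', by cases e; exact h⟩⟩

theorem Def.comap [AddMonoid.FG M'] (hX : Def p F X) (g : B' → B) (k : M' →+ M)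
    (hF : ∀ f ∈ F, (fun b => f (g b)) ∈ F') :
    Def p F' {x : B' × M' | (g x.1, k x.2) ∈ X} := by
  obtain ⟨σ, _, f, N, S, h1, h2, h3⟩ := hX
  exact ⟨σ, inferInstance, fun i b => f i (g b), N, _, fun i => hF _ (h1 i),
    h2.preimage ((AddMonoidHom.id _).prodMap k), fun b n => h3 (g b) (k n)⟩

theorem Def.hom [AddMonoid.FG M'] (hX : Def p F X) (k : M' →+ M) :
    Def p F {x : B × M' | (x.1, k x.2) ∈ X} := hX.comap id k fun _ h => h

variable [AddMonoid.FG M]

theorem Def.of_semi {S : Set M} (hS : IsSemilinearSet S) : Def p F {x : B × M | x.2 ∈ S} :=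
  ⟨Empty, inferInstance, Empty.elim, 0, _, fun i => i.elim,
    hS.preimage (AddMonoidHom.snd _ M), fun _ _ => Iff.rfl⟩

theorem Def.mono (hX : Def p F X) {G : Set (B → ℚ_[p])} (hF : F ⊆ G) : Def p G X :=
  hX.comap id (AddMonoidHom.id M) fun _ h => hF h

theorem Def.univ : Def p F (Set.univ : Set (B × M)) := Def.of_semi IsSemilinearSet.univ

theorem Def.empty : Def p F (∅ : Set (B × M)) := Def.of_semi IsSemilinearSet.empty

theorem Def.compl (hX : Def p F X) : Def p F Xᶜ := by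
  obtain ⟨σ, _, f, N, S, h1, h2, h3⟩ := hX
  exact ⟨σ, inferInstance, f, N, _, h1, h2.compl, fun b n => not_congr (h3 b n)⟩

theorem Def.inter (hX : Def p F X) (hY : Def p F Y) : Def p F (X ∩ Y) := by
  obtain ⟨σ, _, f, N, S, h1, h2, h3⟩ := hX
  obtain ⟨σ', _, f', N', S', h1', h2', h3'⟩ := hY
  let φ : (σ ⊕ σ' → RV p (max N N')) × M →+ (σ → RV p N) × M :=
    (AddMonoidHom.pi fun i => (res (le_max_left N N')).comp
      (Pi.evalAddMonoidHom _ (Sum.inl i))).prodMap (AddMonoidHom.id M)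
  let φ' : (σ ⊕ σ' → RV p (max N N')) × M →+ (σ' → RV p N') × M :=
    (AddMonoidHom.pi fun i => (res (le_max_right N N')).comp
      (Pi.evalAddMonoidHom _ (Sum.inr i))).prodMap (AddMonoidHom.id M)
  refine ⟨σ ⊕ σ', inferInstance, Sum.elim f f', max N N', _, ?_,
    (h2.preimage φ).inter (h2'.preimage φ'), fun b n => and_congr (h3 b n) (h3' b n)⟩
  rintro (i | i)
  exacts [h1 i, h1' i]

theorem Def.union (hX : Def p F X) (hY : Def p F Y) : Def p F (X ∪ Y) := by
  simpa [Set.compl_inter] using (hX.compl.inter hY.compl).compl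

theorem Def.and {P Q : B × M → Prop} (h1 : Def p F {x | P x}) (h2 : Def p F {x | Q x}) :
    Def p F {x | P x ∧ Q x} := h1.inter h2

theorem Def.or {P Q : B × M → Prop} (h1 : Def p F {x | P x}) (h2 : Def p F {x | Q x}) :
    Def p F {x | P x ∨ Q x} := h1.union h2

theorem Def.not {P : B × M → Prop} (h1 : Def p F {x | P x}) : Def p F {x | ¬ P x} := h1.compl

theorem Def.imp {P Q : B × M → Prop} (h1 : Def p F {x | P x}) (h2 : Def p F {x | Q x}) :
    Def p F {x | P x → Q x} := (h1.not.or h2).congr fun _ _ => imp_iff_not_or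

theorem Def.const (P : Prop) : Def p F {_x : B × M | P} := by
  by_cases h : P
  · simpa [h] using Def.univ
  · simpa [h] using Def.empty

theorem Def.bexists {ι : Type} {T : Set ι} (hT : T.Finite) {P : ι → B × M → Prop}
    (h : ∀ i ∈ T, Def p F {x | P i x}) : Def p F {x | ∃ i ∈ T, P i x} := by
  induction T, hT using Set.Finite.induction_on with
  | empty => simpa using Def.empty
  | insert _ _ ih =>
    exact ((h _ (Set.mem_insert _ _)).or
      (ih fun i hi => h i (Set.mem_insert_of_mem _ hi))).congr fun _ _ => by simp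

theorem Def.bforall {ι : Type} {T : Set ι} (hT : T.Finite) {P : ι → B × M → Prop}
    (h : ∀ i ∈ T, Def p F {x | P i x}) : Def p F {x | ∀ i ∈ T, P i x} :=
  (Def.bexists hT fun i hi => (h i hi).not).not.congr fun _ _ => by simp

theorem Def.exists {ι : Type} [Finite ι] {P : ι → B × M → Prop}
    (h : ∀ i, Def p F {x | P i x}) : Def p F {x | ∃ i, P i x} :=
  (Def.bexists Set.finite_univ fun i _ => h i).congr fun _ _ => by simp

theorem Def.forall {ι : Type} [Finite ι] {P : ι → B × M → Prop}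
    (h : ∀ i, Def p F {x | P i x}) : Def p F {x | ∀ i, P i x} :=
  (Def.bforall Set.finite_univ fun i _ => h i).congr fun _ _ => by simp

theorem DefSet.def (hD : DefSet p F D) : Def p F {x : B × M | x.1 ∈ D} := Def.hom hD 0

theorem DefSet.univ : DefSet p F (Set.univ : Set B) := Def.univ

theorem Def.sub {G : Set (B → ℚ_[p])} (hX : Def p G X) (hD : DefSet p F D)
    (hG : ∀ g ∈ G, DefFun p F D g) : Def p F {x | x.1 ∈ D ∧ x ∈ X} := by
  obtain ⟨σ, _, f, N, S, h1, h2, h3⟩ := hX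
  have h4 : Def p F {x : B × M × (σ → RV p N) | x.1 ∈ D ∧
      (∀ i, x.1 ∈ D ∧ code p N (f i x.1) = x.2.2 i) ∧ x.2 ∈ Prod.swap ⁻¹' S} :=
    hD.def.and (Def.and (Def.forall fun i => (hG _ (h1 i) N).hom
      ((Pi.evalAddMonoidHom (fun _ : σ => RV p N) i).comp (AddMonoidHom.snd M _)))
      (Def.of_semi (h2.preimage (AddEquiv.prodComm (M := M) (N := σ → RV p N)))))
  refine h4.proj.congr fun b n => ⟨fun h => ⟨_, h.1, fun i => ⟨h.1, rfl⟩, (h3 b n).1 h.2⟩, ?_⟩
  rintro ⟨u, hb, hu, hS⟩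
  obtain rfl : (fun i => code p N (f i b)) = u := funext fun i => (hu i).2
  exact ⟨hb, (h3 b n).2 hS⟩

theorem Def.elim {X : Set ((B × ℚ_[p]) × M)} (hX : Def p (plus p F) X) :
    Def p F {x : B × M | ∃ s, ((x.1, s), x.2) ∈ X} := by
  classical
  obtain ⟨σ, _, f, N, S, h1, h2, h3⟩ := hX
  have h4 : ∀ i : {i // f i ≠ Prod.snd}, ∃ g ∈ F, f i = fun x => g x.1 := fun i =>
    (h1 i).resolve_right i.2
  choose g hg e using h4
  let φ : (({i // f i ≠ Prod.snd} → RV p N) × M) × RV p N →+ (σ → RV p N) × M :=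
    (AddMonoidHom.pi fun i => if h : f i = Prod.snd then AddMonoidHom.snd _ _ else
      (Pi.evalAddMonoidHom _ ⟨i, h⟩).comp ((AddMonoidHom.fst _ _).comp
        (AddMonoidHom.fst _ _))).prod ((AddMonoidHom.snd _ _).comp (AddMonoidHom.fst _ _))
  have h5 : ∀ b s n, φ (((fun i => code p N (g i b)), n), code p N s) =
      ((fun i => code p N (f i (b, s))), n) := fun b s n => by
    refine Prod.ext (funext fun i => ?_) rfl
    by_cases h : f i = Prod.snd
    · simp [φ, h]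
    · have := congrFun (e ⟨i, h⟩) (b, s)
      simp only at this
      simp [φ, h, this]
  refine ⟨_, inferInstance, g, N, _, hg, (h2.preimage φ).image (AddMonoidHom.fst _ _),
    fun b n => ⟨fun ⟨s, h⟩ => ⟨(_, code p N s), ?_, rfl⟩, ?_⟩⟩
  · rw [Set.mem_preimage, h5]
    exact (h3 _ _).1 h
  · rintro ⟨⟨_, w⟩, h, rfl⟩
    obtain ⟨s, rfl⟩ := code_surj w
    rw [Set.mem_preimage] at h
    exact ⟨s, (h3 _ _).2 (h5 b s n ▸ h)⟩

theorem Def.slice (hX : Def p F X) (b : B) : IsSemilinearSet {n | (b, n) ∈ X} := by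
  obtain ⟨σ, _, f, N, S, -, h2, h3⟩ := hX
  have := (h2.inter ((IsSemilinearSet.singleton fun i => code p N (f i b)).preimage
    (AddMonoidHom.fst _ M))).image (AddMonoidHom.snd _ M)
  convert this using 1
  ext n
  refine ⟨fun h => ⟨(_, n), ⟨(h3 b n).1 h, rfl⟩, rfl⟩, ?_⟩
  rintro ⟨⟨u, _⟩, ⟨h, rfl : u = _⟩, rfl⟩
  exact (h3 b _).2 h

theorem DefFun.defSet (hf : DefFun p F D f) : DefSet p F D :=
  (Def.image (0 : RV p 0 →+ Unit) (hf 0)).congr fun b _ =>
    ⟨fun h => ⟨code p 0 (f b), rfl, h, rfl⟩, fun ⟨_, _, h, _⟩ => h⟩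

theorem DefFun.of_mem (hD : DefSet p F D) (hf : f ∈ F) : DefFun p F D f := fun N =>
  hD.def.and ⟨Unit, inferInstance, fun _ => f, N, _, fun _ => hf,
    isSemilinearSet_setOfPred_eq 0 0 ((Pi.evalAddMonoidHom _ ()).comp (AddMonoidHom.fst _ _))
      (AddMonoidHom.snd (Unit → RV p N) (RV p N)), fun _ _ => by simp⟩

theorem DefFun.const (hD : DefSet p F D) (c : ℚ_[p]) : DefFun p F D fun _ => c := fun N =>
  hD.def.and ((Def.of_semi (IsSemilinearSet.singleton (code p N c))).congr fun _ _ => eq_comm)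

theorem DefFun.congr (hf : DefFun p F D f) (e : ∀ b ∈ D, g b = f b) : DefFun p F D g := fun N =>
  (hf N).congr fun b _ => and_congr_right fun hb => by rw [e b hb]

theorem DefFun.restrict (hf : DefFun p F D f) {D' : Set B} (hD : DefSet p F D') (e : D' ⊆ D) :
    DefFun p F D' f := fun N =>
  (hD.def.and (hf N)).congr fun _ _ => ⟨fun h => ⟨h.1, e h.1, h.2⟩, fun h => ⟨h.1, h.2.2⟩⟩

theorem DefFun.comap (hf : DefFun p F D f) (g : B' → B)
    (hF : ∀ f ∈ F, (fun b => f (g b)) ∈ F') : DefFun p F' (g ⁻¹' D) fun b => f (g b) :=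
  fun N => (hf N).comap g (AddMonoidHom.id _) hF

/-- A semilinear relation between two leading terms and the second coordinate. -/
theorem DefFun.rel (hf : DefFun p F D f) (hg : DefFun p F D g)
    {S : Set (M × RV p N × RV p N)} (hS : IsSemilinearSet S) :
    Def p F {x : B × M | x.1 ∈ D ∧ (x.2, code p N (f x.1), code p N (g x.1)) ∈ S} :=
  ((((hf N).hom ((AddMonoidHom.fst _ _).comp (AddMonoidHom.snd M _))).and
    (((hg N).hom ((AddMonoidHom.snd _ _).comp (AddMonoidHom.snd M _))).and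
      (Def.of_semi hS))).proj).congr fun b _ =>
    ⟨fun h => ⟨(_, _), ⟨h.1, rfl⟩, ⟨h.1, rfl⟩, h.2⟩, by
      rintro ⟨⟨u, w⟩, ⟨h, rfl : code p N (f b) = u⟩, ⟨_, rfl : code p N (g b) = w⟩, h'⟩
      exact ⟨h, h'⟩⟩

theorem DefFun.mul (hf : DefFun p F D f) (hg : DefFun p F D g) :
    DefFun p F D fun b => f b * g b := fun N =>
  (hf.rel hg (isSemilinearSet_setOfPred_eq 0 0
    ((AddMonoidHom.coprod (AddMonoidHom.id _) (AddMonoidHom.id _)).comp (AddMonoidHom.snd _ _))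
    (AddMonoidHom.fst (RV p N) (RV p N × RV p N)))).congr fun _ _ => by simp [code_mul]

theorem DefFun.pow (hf : DefFun p F D f) (j : ℕ) : DefFun p F D fun b => f b ^ j := by
  induction j with
  | zero => simpa using DefFun.const hf.defSet 1
  | succ j ih => simpa [pow_succ] using ih.mul hf

theorem DefFun.div (hf : DefFun p F D f) (hh : DefFun p F D h)
    (e : ∀ b ∈ D, h b ≠ 0 ∧ h b * g b = f b) : DefFun p F D g := fun N =>
  (hf.rel hh (isSemilinearSet_setOfPred_eq 0 0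
    ((AddMonoidHom.fst _ _).comp (AddMonoidHom.snd _ _))
    (AddMonoidHom.coprod (AddMonoidHom.id (RV p N)) (AddMonoidHom.snd (RV p N) (RV p N))))).congr
    fun b u => and_congr_right fun hb => by
      obtain ⟨z, rfl⟩ := code_surj u
      obtain ⟨h0, e⟩ := e b hb
      have h1 := norm_pos_iff.2 h0
      simp only [zero_add, Set.mem_ofPred_eq, AddMonoidHom.coe_comp, AddMonoidHom.coe_fst,
        AddMonoidHom.coe_snd, Function.comp_apply, AddMonoidHom.coprod_apply, AddMonoidHom.id_apply]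
      rw [← code_mul, ← e, code_eq_iff, code_eq_iff, mul_comm z, ← mul_sub, norm_mul, norm_mul,
        mul_left_comm, mul_le_mul_iff_right₀ h1]

theorem DefFun.code_eq (hf : DefFun p F D f) (hg : DefFun p F D g) (N : ℕ) :
    Def p F {x : B × M | x.1 ∈ D ∧ code p N (f x.1) = code p N (g x.1)} :=
  (hf.rel hg (isSemilinearSet_setOfPred_eq 0 0
    ((AddMonoidHom.fst _ _).comp (AddMonoidHom.snd _ _))
    ((AddMonoidHom.snd _ _).comp (AddMonoidHom.snd M (RV p N × RV p N))))).congr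
    fun _ _ => by simp

theorem DefFun.eq_zero (hf : DefFun p F D f) : Def p F {x : B × M | x.1 ∈ D ∧ f x.1 = 0} :=
  (hf.code_eq (DefFun.const hf.defSet 0) 0).congr fun _ _ => by simp [code_eq_zero]

theorem DefFun.norm_le (hf : DefFun p F D f) (hg : DefFun p F D g) (k : M →+ ℤ) (c : ℤ) :
    Def p F {x : B × M | x.1 ∈ D ∧ ‖f x.1‖ ≤ (p : ℝ) ^ (-(k x.2 + c)) * ‖g x.1‖} := by
  have hp0 : (p : ℚ_[p]) ≠ 0 := Nat.cast_ne_zero.2 hp.out.ne_zero
  let φ : M × RV p 0 × RV p 0 →+ M × RV p 0 × RV p 0 :=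
    (AddMonoidHom.fst _ _).prod ((((pw p 0).comp k).coprod
      ((AddMonoidHom.id _).coprod (AddMonoidHom.id _))).prod
      ((AddMonoidHom.snd _ _).comp (AddMonoidHom.snd _ _)))
  have h1 := ((ints_semi (p := p) (N := 0)).preimage ((AddMonoidHom.fst _ (RV p 0)).comp
    (AddMonoidHom.snd M _))).image φ
  refine ((hf.rel (hg.mul (DefFun.const hf.defSet ((p : ℚ_[p]) ^ c))) h1)).congr
    fun b n => and_congr_right fun _ => ⟨fun h => ?_, ?_⟩
  · have h2 : ∃ z, ‖z‖ ≤ 1 ∧ f b = (p : ℚ_[p]) ^ k n * (z * (g b * (p : ℚ_[p]) ^ c)) := by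
      rcases eq_or_ne (g b) 0 with h0 | h0
      · exact ⟨0, by simp, by simpa [h0] using h⟩
      · have h3 := zpow_ne_zero (k n) hp0
        have h4 := zpow_ne_zero c hp0
        refine ⟨f b / ((p : ℚ_[p]) ^ (k n + c) * g b), ?_, ?_⟩
        · rw [norm_div, norm_mul, Padic.norm_p_zpow]
          exact div_le_one_of_le₀ h (mul_nonneg (zpow_nonneg p_pos.le _) (norm_nonneg _))
        · rw [zpow_add₀ hp0]
          field_simp
    obtain ⟨z, hz, e⟩ := h2
    exact ⟨(n, code p 0 z, code p 0 (g b * (p : ℚ_[p]) ^ c)), ⟨z, hz, rfl⟩,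
      Prod.ext rfl (Prod.ext (congrArg (code p 0) e.symm) rfl)⟩
  · rintro ⟨⟨m, u, w⟩, ⟨z, hz, rfl : code p 0 z = u⟩, e⟩
    obtain ⟨rfl : m = n, e2, rfl : w = code p 0 (g b * (p : ℚ_[p]) ^ c)⟩ :=
      (Prod.ext_iff.1 e).imp_right Prod.ext_iff.1
    have h2 : ‖(p : ℚ_[p]) ^ k m * (z * (g b * (p : ℚ_[p]) ^ c))‖ = ‖f b‖ := norm_eq_of_code e2
    have := p_pos (p := p)
    change ‖f b‖ ≤ (p : ℝ) ^ (-(k m + c)) * ‖g b‖
    rw [← h2, norm_mul, norm_mul, norm_mul, Padic.norm_p_zpow, Padic.norm_p_zpow, neg_add,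
      zpow_add₀ this.ne', mul_assoc, mul_comm ‖g b‖]
    exact mul_le_mul_of_nonneg_left (mul_le_of_le_one_left
      (mul_nonneg (zpow_nonneg this.le _) (norm_nonneg _)) hz) (zpow_nonneg this.le _)

theorem DefFun.norm_le' (hf : DefFun p F D f) (hg : DefFun p F D g) (c : ℤ) :
    Def p F {x : B × M | x.1 ∈ D ∧ ‖f x.1‖ ≤ (p : ℝ) ^ c * ‖g x.1‖} := by
  simpa using hf.norm_le hg (0 : M →+ ℤ) (-c)

theorem Def.nonneg (k : M →+ ℤ) (c : ℤ) : Def p F {x : B × M | 0 ≤ k x.2 + c} := by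
  refine ((DefFun.const DefSet.univ 1).norm_le (DefFun.const DefSet.univ 1) (-k) (-c)).congr
    fun b n => ?_
  simp only [Set.mem_ofPred_eq, Set.mem_univ, norm_one, AddMonoidHom.neg_apply, mul_one, true_and,
    ← neg_add, neg_neg]
  exact (one_le_zpow_iff_right₀ one_lt_p).symm

section poly

open Polynomial

variable {G : Subring (B → ℚ_[p])}

theorem fst_mem_adj (hf : f ∈ G) : (fun x : B × ℚ_[p] => f x.1) ∈ adj p G :=
  Subring.subset_closure (Or.inl ⟨f, hf, rfl⟩)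

theorem snd_mem_adj : (fun x : B × ℚ_[p] => x.2) ∈ adj p G := Subring.subset_closure (Or.inr rfl)

theorem poly_mem_adj (P : G[X]) :
    (fun x : B × ℚ_[p] => (P.map (ev p G x.1)).eval x.2) ∈ adj p G := by
  induction P using Polynomial.induction_on' with
  | add P Q h1 h2 =>
    simp only [Polynomial.map_add, eval_add]
    exact add_mem h1 h2
  | monomial j a =>
    simp only [Polynomial.map_monomial, eval_monomial]
    exact mul_mem (fst_mem_adj a.2) (pow_mem snd_mem_adj j)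

theorem mem_adj_iff {g : B × ℚ_[p] → ℚ_[p]} :
    g ∈ adj p G ↔ ∃ P : G[X], g = fun x => (P.map (ev p G x.1)).eval x.2 := by
  refine ⟨fun h => ?_, fun ⟨P, e⟩ => e ▸ poly_mem_adj P⟩
  induction h using Subring.closure_induction with
  | mem _ h =>
    rcases h with ⟨f, hf, rfl⟩ | rfl
    · exact ⟨C ⟨f, hf⟩, by ext; simp [ev]⟩
    · exact ⟨X, by ext; simp⟩
  | zero => exact ⟨0, by ext; simp⟩
  | one => exact ⟨1, by ext; simp⟩
  | add _ _ _ _ h1 h2 =>
    obtain ⟨P, rfl⟩ := h1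
    obtain ⟨Q, rfl⟩ := h2
    exact ⟨P + Q, by ext; simp⟩
  | neg _ _ h =>
    obtain ⟨P, rfl⟩ := h
    exact ⟨-P, by ext; simp⟩
  | mul _ _ _ _ h1 h2 =>
    obtain ⟨P, rfl⟩ := h1
    obtain ⟨Q, rfl⟩ := h2
    exact ⟨P * Q, by ext; simp⟩

theorem closure_comp {T : Set (B → ℚ_[p])} {G' : Subring (B' → ℚ_[p])} (k : B' → B)
    (h : ∀ f ∈ T, (fun b => f (k b)) ∈ G') :
    ∀ f ∈ Subring.closure T, (fun b => f (k b)) ∈ G' :=
  fun _ hf => (Subring.closure_le (t := G'.comap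
    (RingHom.pi fun b => Pi.evalRingHom (fun _ => ℚ_[p]) (k b)))).2 h hf

theorem adj_comp {G' : Subring (B' → ℚ_[p])} (k : B' → B × ℚ_[p])
    (h1 : ∀ f ∈ G, (fun b => f (k b).1) ∈ G') (h2 : (fun b => (k b).2) ∈ G') :
    ∀ f ∈ adj p G, (fun b => f (k b)) ∈ G' := by
  refine closure_comp k ?_
  rintro _ (⟨f, hf, rfl⟩ | rfl)
  exacts [h1 f hf, h2]

theorem coord_mem_PF {ι : Type} (i : ι) : (fun x : ι → ℚ_[p] => x i) ∈ PF p ι :=
  Subring.subset_closure ⟨i, rfl⟩

theorem PF_comp {ι : Type} {G' : Subring (B' → ℚ_[p])} (k : B' → ι → ℚ_[p])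
    (h : ∀ i, (fun b => k b i) ∈ G') : ∀ f ∈ PF p ι, (fun b => f (k b)) ∈ G' := by
  refine closure_comp k ?_
  rintro _ ⟨i, rfl⟩
  exact h i

end poly

end Pool.Agent.Lib.PadicQE
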