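import Pool.Agent.Lib.PadicQE.Defs

namespace Pool.Agent.Lib.PadicQE

variable (p : ℕ)

theorem series_den (l : Multiset (ℤ × ℕ)) : ∃ Q : Polynomial ℚ,
    (l.map fun ab => 1 - PowerSeries.C ((p : ℚ) ^ ab.1) * PowerSeries.X ^ ab.2).prod =
      (Q : PowerSeries ℚ) := by
  induction l using Multiset.induction_on with
  | empty => exact ⟨1, by simp⟩
  | cons a l ih =>
    obtain ⟨Q, hQ⟩ := ih
    refine ⟨(1 - Polynomial.C ((p : ℚ) ^ a.1) * Polynomial.X ^ a.2) * Q, ?_⟩
    rw [Multiset.map_cons, Multiset.prod_cons, hQ]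
    simp

theorem Rat.coe (P : Polynomial ℚ) : Rat p (P : PowerSeries ℚ) := ⟨0, P, by simp, by simp⟩

theorem Rat.add {G H : PowerSeries ℚ} (hG : Rat p G) (hH : Rat p H) : Rat p (G + H) := by
  obtain ⟨l1, P1, h1, e1⟩ := hG
  obtain ⟨l2, P2, h2, e2⟩ := hH
  obtain ⟨Q1, hQ1⟩ := series_den p l1
  obtain ⟨Q2, hQ2⟩ := series_den p l2
  refine ⟨l1 + l2, Q2 * P1 + Q1 * P2, fun ab hab => ?_, ?_⟩
  · rcases Multiset.mem_add.1 hab with h | h
    exacts [h1 _ h, h2 _ h]
  · rw [Multiset.map_add, Multiset.prod_add]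
    rw [hQ1] at e1 ⊢
    rw [hQ2] at e2 ⊢
    rw [Polynomial.coe_add, Polynomial.coe_mul, Polynomial.coe_mul, ← e1, ← e2]
    ring

theorem Rat.mul {G H : PowerSeries ℚ} (hG : Rat p G) (hH : Rat p H) : Rat p (G * H) := by
  obtain ⟨l1, P1, h1, e1⟩ := hG
  obtain ⟨l2, P2, h2, e2⟩ := hH
  refine ⟨l1 + l2, P1 * P2, fun ab hab => ?_, ?_⟩
  · rcases Multiset.mem_add.1 hab with h | h
    exacts [h1 _ h, h2 _ h]
  · rw [Multiset.map_add, Multiset.prod_add, Polynomial.coe_mul, ← e1, ← e2]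
    ring

theorem Rat.smul (c : ℚ) {G : PowerSeries ℚ} (hG : Rat p G) : Rat p (c • G) := by
  have h := Rat.mul p (Rat.coe p (Polynomial.C c)) hG
  rw [Polynomial.coe_C] at h
  rwa [PowerSeries.smul_eq_C_mul]

theorem Rat.sum {ι : Type} (s : Finset ι) {G : ι → PowerSeries ℚ} (h : ∀ i ∈ s, Rat p (G i)) :
    Rat p (∑ i ∈ s, G i) := by
  classical
  induction s using Finset.induction_on with
  | empty => simpa using Rat.coe p 0
  | insert a s ha ih =>
    rw [Finset.sum_insert ha]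
    exact Rat.add p (h a (Finset.mem_insert_self _ _))
      (ih fun i hi => h i (Finset.mem_insert_of_mem hi))

theorem series_sub {G H : PowerSeries ℚ} (hG : Rat p G) (hH : Rat p H) : Rat p (G - H) := by
  have h := Rat.add p hG (Rat.smul p (-1) hH)
  rwa [neg_one_smul, ← sub_eq_add_neg] at h

theorem series_div {G : PowerSeries ℚ} (a : ℤ) (b : ℕ) (hb : 1 ≤ b)
    (hG : Rat p ((1 - PowerSeries.C ((p : ℚ) ^ a) * PowerSeries.X ^ b) * G)) : Rat p G := by
  obtain ⟨l, P, h, e⟩ := hG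
  refine ⟨(a, b) ::ₘ l, P, fun ab hab => ?_, ?_⟩
  · rcases Multiset.mem_cons.1 hab with rfl | h'
    exacts [hb, h _ h']
  · rw [Multiset.map_cons, Multiset.prod_cons, ← e]
    ring

theorem series_mono (a : ℤ) (b : ℕ) :
    Rat p (PowerSeries.C ((p : ℚ) ^ a) * PowerSeries.X ^ b) := by
  have h := Rat.coe p (Polynomial.C ((p : ℚ) ^ a) * Polynomial.X ^ b)
  simpa using h

theorem series_dickson {M : Type} [AddCommMonoid M] {H : AddSubmonoid M} (hH : H.FG)
    {C D : Set M} (hC : C.Finite) (hD : ∀ x ∈ D, ∃ c ∈ C, ∃ a ∈ H, x = c + a) :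
    ∃ C' : Set M, C'.Finite ∧ C' ⊆ D ∧ ∀ x ∈ D, ∃ c ∈ C', ∃ a ∈ H, x = c + a := by
  obtain ⟨n, φ, rfl⟩ := AddSubmonoid.fg_iff_exists_fin_addMonoidHom.1 hH
  refine ⟨⋃ c ∈ C, (fun f => c + φ f) '' {f | Minimal (· ∈ {f | c + φ f ∈ D}) f}, ?_, ?_, ?_⟩
  · refine hC.biUnion fun c _ => Set.Finite.image _ ?_
    exact (setOfPred_minimal_antichain _).finite_of_partiallyWellOrderedOn
      ((Set.isPWO_of_wellQuasiOrderedLE {f | c + φ f ∈ D}).mono (setOfPred_minimal_subset _))
  · intro x hx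
    simp only [Set.mem_iUnion, Set.mem_image] at hx
    obtain ⟨c, _, f, hf, rfl⟩ := hx
    exact hf.1
  · intro x hx
    obtain ⟨c, hc, a, ⟨f, rfl⟩, rfl⟩ := hD x hx
    obtain ⟨g, hg, hg'⟩ :=
      (Set.isPWO_of_wellQuasiOrderedLE {f | c + φ f ∈ D}).exists_le_minimal (a := f) hx
    obtain ⟨k, rfl⟩ := le_iff_exists_add.1 hg
    refine ⟨c + φ g, ?_, φ k, ⟨k, rfl⟩, by rw [map_add, add_assoc]⟩
    simp only [Set.mem_iUnion, Set.mem_image]
    exact ⟨c, hc, g, hg', rfl⟩

theorem series_fg_inf {M : Type} [AddCommGroup M] {H K : AddSubmonoid M} (hH : H.FG)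
    (hK : K.FG) : (H ⊓ K).FG := by
  obtain ⟨n, φ, rfl⟩ := AddSubmonoid.fg_iff_exists_fin_addMonoidHom.1 hH
  obtain ⟨m, ψ, rfl⟩ := AddSubmonoid.fg_iff_exists_fin_addMonoidHom.1 hK
  have h := (AddSubmonoid.fg_eqLocusM (φ.comp (AddMonoidHom.fst (Fin n → ℕ) (Fin m → ℕ)))
    (ψ.comp (AddMonoidHom.snd (Fin n → ℕ) (Fin m → ℕ)))).map
      (φ.comp (AddMonoidHom.fst (Fin n → ℕ) (Fin m → ℕ)))
  convert h using 1
  ext x
  constructor
  · rintro ⟨⟨f, rfl⟩, ⟨g, hg⟩⟩
    exact ⟨(f, g), hg.symm, rfl⟩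
  · rintro ⟨⟨f, g⟩, h, rfl⟩
    exact ⟨⟨f, rfl⟩, ⟨g, Eq.symm h⟩⟩

section

variable {M : Type} [AddCommGroup M] (π w : M →+ ℤ)

/-- The generating series of a set. -/
noncomputable def seriesG (D : Set M) : PowerSeries ℚ :=
  PowerSeries.mk fun j : ℕ => ∑ᶠ n ∈ {n ∈ D | π n = j}, (p : ℚ) ^ w n

/-- Sets with finite fibres. -/
def seriesAdm (D : Set M) : Prop :=
  (∀ n ∈ D, 0 ≤ π n) ∧ ∀ j : ℤ, {n ∈ D | π n = j}.Finite

/-- Finite unions of translates of one finitely generated monoid. -/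
def seriesGen (T : Set M) : Prop :=
  ∃ H : AddSubmonoid M, H.FG ∧ ∃ C : Set M, C.Finite ∧ ∀ x, x ∈ T ↔ ∃ c ∈ C, ∃ a ∈ H, x = c + a

variable {π}

theorem seriesAdm.mono {D E : Set M} (h : seriesAdm π D) (hE : E ⊆ D) : seriesAdm π E :=
  ⟨fun n hn => h.1 n (hE hn), fun j => (h.2 j).subset fun _ hn => ⟨hE hn.1, hn.2⟩⟩

theorem series_union_inter {D E : Set M} (hD : seriesAdm π D) (hE : seriesAdm π E) :
    seriesG p π w (D ∪ E) + seriesG p π w (D ∩ E) = seriesG p π w D + seriesG p π w E := by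
  ext j
  simp only [seriesG, map_add, PowerSeries.coeff_mk]
  rw [← finsum_mem_union_inter (hD.2 j) (hE.2 j)]
  congr 1
  · refine finsum_mem_congr ?_ fun _ _ => rfl
    ext n
    simp only [Set.mem_ofPred_eq, Set.mem_union, or_and_right]
  · refine finsum_mem_congr ?_ fun _ _ => rfl
    ext n
    simp only [Set.mem_ofPred_eq, Set.mem_inter_iff]
    tauto

theorem series_empty : seriesG p π w ∅ = 0 := by
  ext j
  simp [seriesG]

theorem series_split {D : Set M} (hD : seriesAdm π D) {E : Set M} (hE : E ⊆ D) :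
    seriesG p π w D = seriesG p π w E + seriesG p π w (D \ E) := by
  have h := series_union_inter p w (hD.mono hE) (hD.mono (Set.sdiff_subset (t := E)))
  rwa [Set.union_sdiff_cancel hE, Set.inter_sdiff_self, series_empty, add_zero] at h

theorem series_shift (hp : p ≠ 0) {D : Set M} (hD : seriesAdm π D) (h : M) (b : ℕ)
    (hb : π h = b) : seriesG p π w ((fun x => h + x) '' D) =
      PowerSeries.C ((p : ℚ) ^ w h) * PowerSeries.X ^ b * seriesG p π w D := by
  ext j
  rw [mul_assoc, PowerSeries.coeff_C_mul, PowerSeries.coeff_X_pow_mul']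
  simp only [seriesG, PowerSeries.coeff_mk]
  split_ifs with hj
  · have e : {n ∈ (fun x => h + x) '' D | π n = j} =
        (fun x => h + x) '' {n ∈ D | π n = ((j - b : ℕ) : ℤ)} := by
      ext n
      simp only [Set.mem_ofPred_eq, Set.mem_image]
      constructor
      · rintro ⟨⟨x, hx, rfl⟩, h2⟩
        refine ⟨x, ⟨hx, ?_⟩, rfl⟩
        rw [map_add, hb] at h2
        push_cast [hj]
        omega
      · rintro ⟨x, ⟨hx, h2⟩, rfl⟩
        refine ⟨⟨x, hx, rfl⟩, ?_⟩
        rw [map_add, hb, h2]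
        push_cast [hj]
        omega
    rw [e, finsum_mem_image (add_right_injective h).injOn, mul_finsum_mem]
    refine finsum_mem_congr rfl fun x _ => ?_
    rw [map_add, zpow_add₀ (by exact_mod_cast hp)]
  · have e : {n ∈ (fun x => h + x) '' D | π n = j} = ∅ := by
      ext n
      simp only [Set.mem_ofPred_eq, Set.mem_image, Set.mem_empty_iff_false, iff_false]
      rintro ⟨⟨x, hx, rfl⟩, h2⟩
      rw [map_add, hb] at h2
      have := hD.1 x hx
      omega
    rw [e, finsum_mem_empty, mul_zero]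

theorem series_finite {D : Set M} (hD : D.Finite) : Rat p (seriesG p π w D) := by
  obtain ⟨N, hN⟩ := (hD.image π).bddAbove
  have e : seriesG p π w D =
      ((PowerSeries.trunc (N.toNat + 1) (seriesG p π w D) : Polynomial ℚ) : PowerSeries ℚ) := by
    ext j
    rw [Polynomial.coeff_coe, PowerSeries.coeff_trunc]
    split_ifs with hj
    · rfl
    · have e : {n ∈ D | π n = j} = ∅ := by
        ext n
        simp only [Set.mem_ofPred_eq, Set.mem_empty_iff_false, iff_false]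
        rintro ⟨hn, h2⟩
        have := hN ⟨n, hn, rfl⟩
        omega
      simp only [seriesG, PowerSeries.coeff_mk]
      rw [e, finsum_mem_empty]
  rw [e]
  exact Rat.coe p _

theorem series_mem_insert [DecidableEq M] (h : M) (s : Finset M) (a : M) :
    a ∈ AddSubmonoid.closure ((insert h s : Finset M) : Set M) ↔
      ∃ k : ℕ, ∃ b ∈ AddSubmonoid.closure (s : Set M), a = k • h + b := by
  rw [Finset.coe_insert, Set.insert_eq, AddSubmonoid.closure_union, AddSubmonoid.mem_sup]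
  constructor
  · rintro ⟨y, hy, z, hz, rfl⟩
    obtain ⟨k, rfl⟩ := AddSubmonoid.mem_closure_singleton.1 hy
    exact ⟨k, z, hz, rfl⟩
  · rintro ⟨k, b, hb, rfl⟩
    exact ⟨_, AddSubmonoid.mem_closure_singleton.2 ⟨k, rfl⟩, b, hb, rfl⟩

theorem series_convex (hp : p ≠ 0) (s : Finset M) (hs : ∀ h ∈ s, 0 < π h) (D C : Set M)
    (hC : C.Finite) (hD : seriesAdm π D)
    (hDC : ∀ x ∈ D, ∃ c ∈ C, ∃ a ∈ AddSubmonoid.closure (s : Set M), x = c + a)
    (hcv : ∀ x ∈ D, ∀ a ∈ AddSubmonoid.closure (s : Set M),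
      ∀ b ∈ AddSubmonoid.closure (s : Set M), x + a + b ∈ D → x + a ∈ D) :
    Rat p (seriesG p π w D) := by
  classical
  induction s using Finset.induction_on generalizing D C with
  | empty =>
    refine series_finite p w (hC.subset fun x hx => ?_)
    obtain ⟨c, hc, a, ha, rfl⟩ := hDC x hx
    simp only [Finset.coe_empty, AddSubmonoid.closure_empty, AddSubmonoid.mem_bot] at ha
    rwa [ha, add_zero]
  | insert h s hh ih =>
    have hs' : ∀ g ∈ s, 0 < π g := fun g hg => hs g (Finset.mem_insert_of_mem hg)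
    have hpos := hs h (Finset.mem_insert_self _ _)
    obtain ⟨b, hb⟩ : ∃ b : ℕ, π h = b := ⟨(π h).toNat, by omega⟩
    have hle : ∀ a ∈ AddSubmonoid.closure (s : Set M),
        a ∈ AddSubmonoid.closure ((insert h s : Finset M) : Set M) := fun a ha =>
      (series_mem_insert h s a).2 ⟨0, a, ha, by simp⟩
    have hhm : h ∈ AddSubmonoid.closure ((insert h s : Finset M) : Set M) :=
      AddSubmonoid.subset_closure (by simp)
    have hFG : (AddSubmonoid.closure ((insert h s : Finset M) : Set M)).FG := ⟨_, rfl⟩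
    have hCp : Rat p (seriesG p π w {x ∈ D | x - h ∉ D}) := by
      obtain ⟨C', h1, h2, h3⟩ := series_dickson hFG hC (D := {x ∈ D | x - h ∉ D})
        fun x hx => hDC x hx.1
      refine ih hs' _ C' h1 (hD.mono fun x hx => hx.1) (fun x hx => ?_)
        fun x hx a ha b hb hab => ⟨hcv x hx.1 a (hle a ha) b (hle b hb) hab.1, fun hc => ?_⟩
      · obtain ⟨c, hc, a, ha, rfl⟩ := h3 x hx
        obtain ⟨k, b, hb, rfl⟩ := (series_mem_insert h s a).1 ha
        rcases k with _ | k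
        · exact ⟨c, hc, b, hb, by simp⟩
        · exfalso
          apply hx.2
          have e : c + ((k + 1) • h + b) - h = c + (k • h + b) := by
            rw [succ_nsmul]; abel
          rw [e]
          refine hcv c (h2 hc).1 _ ((series_mem_insert h s _).2 ⟨k, b, hb, rfl⟩) h hhm ?_
          have e' : c + (k • h + b) + h = c + ((k + 1) • h + b) := by
            rw [succ_nsmul]; abel
          rw [e']
          exact hx.1
      · apply hab.2
        have e : x + a + b - h = x + a - h + b := by abel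
        rw [e]
        refine hcv _ hc b (hle b hb) h hhm ?_
        have e' : x + a - h + b + h = x + a + b := by abel
        rw [e']
        exact hab.1
    have hKp : Rat p (seriesG p π w {x ∈ D | x + h ∉ D}) := by
      obtain ⟨C', h1, h2, h3⟩ := series_dickson hFG hC (D := {x ∈ D | x + h ∉ D})
        fun x hx => hDC x hx.1
      refine ih hs' _ C' h1 (hD.mono fun x hx => hx.1) (fun x hx => ?_)
        fun x hx a ha b hb hab => ⟨hcv x hx.1 a (hle a ha) b (hle b hb) hab.1, fun hc => ?_⟩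
      · obtain ⟨c, hc, a, ha, rfl⟩ := h3 x hx
        obtain ⟨k, b, hb, rfl⟩ := (series_mem_insert h s a).1 ha
        rcases k with _ | k
        · exact ⟨c, hc, b, hb, by simp⟩
        · exfalso
          apply (h2 hc).2
          refine hcv c (h2 hc).1 h hhm _ ((series_mem_insert h s _).2 ⟨k, b, hb, rfl⟩) ?_
          have e' : c + h + (k • h + b) = c + ((k + 1) • h + b) := by
            rw [succ_nsmul]; abel
          rw [e']
          exact hx.1
      · apply hx.2
        refine hcv x hx.1 h hhm a (hle a ha) ?_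
        rwa [add_right_comm]
    have e1 := series_split p w hD (E := {x ∈ D | x - h ∉ D}) fun x hx => hx.1
    have e2 := series_split p w hD (E := {x ∈ D | x + h ∉ D}) fun x hx => hx.1
    have e3 : D \ {x ∈ D | x - h ∉ D} = (fun x => h + x) '' (D \ {x ∈ D | x + h ∉ D}) := by
      ext x
      simp only [Set.mem_sdiff, Set.mem_ofPred_eq, Set.mem_image, not_and, not_not]
      constructor
      · rintro ⟨h1, h2⟩
        exact ⟨x - h, ⟨h2 h1, fun _ => by rwa [sub_add_cancel]⟩, by abel⟩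
      · rintro ⟨y, ⟨h1, h2⟩, rfl⟩
        exact ⟨by rw [add_comm]; exact h2 h1, fun _ => by rwa [add_sub_cancel_left]⟩
    rw [e3, series_shift p w hp (hD.mono Set.sdiff_subset) h b hb] at e1
    refine series_div p (w h) b (by omega) ?_
    have e4 : (1 - PowerSeries.C ((p : ℚ) ^ w h) * PowerSeries.X ^ b) * seriesG p π w D =
        seriesG p π w {x ∈ D | x - h ∉ D} - PowerSeries.C ((p : ℚ) ^ w h) * PowerSeries.X ^ b *
          seriesG p π w {x ∈ D | x + h ∉ D} := by
      linear_combination e1 - PowerSeries.C ((p : ℚ) ^ w h) * PowerSeries.X ^ b * e2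
    rw [e4]
    exact series_sub p hCp (Rat.mul p (series_mono p _ _) hKp)

theorem seriesGen.inter {T U : Set M} (hT : seriesGen T) (hU : seriesGen U) :
    seriesGen (T ∩ U) := by
  obtain ⟨H, hH, C, hC, eT⟩ := hT
  obtain ⟨K, hK, B, hB, eU⟩ := hU
  obtain ⟨C', h1, h2, h3⟩ := series_dickson (hH.prod hK) (hC.prod hB)
    (D := {y : M × M | y.1 = y.2 ∧ y.1 ∈ T ∩ U}) (by
      rintro ⟨x, y⟩ ⟨hxy, hx1, hx2⟩
      obtain ⟨c, hc, a, ha, e1⟩ := (eT x).1 hx1
      obtain ⟨c', hc', a', ha', e2⟩ := (eU x).1 hx2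
      exact ⟨(c, c'), ⟨hc, hc'⟩, (a, a'), ⟨ha, ha'⟩, Prod.ext e1 (hxy.symm.trans e2)⟩)
  refine ⟨H ⊓ K, series_fg_inf hH hK, Prod.fst '' C', h1.image _, fun x => ⟨fun hx => ?_, ?_⟩⟩
  · obtain ⟨c, hc, a, ha, e⟩ := h3 (x, x) ⟨rfl, hx⟩
    have e1 : x = c.1 + a.1 := congrArg Prod.fst e
    have e2 : x = c.2 + a.2 := congrArg Prod.snd e
    have e3 : a.1 = a.2 := by
      have := (h2 hc).1
      rw [e1, this] at e2
      exact add_left_cancel e2
    exact ⟨c.1, ⟨c, hc, rfl⟩, a.1, ⟨ha.1, e3 ▸ ha.2⟩, e1⟩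
  · rintro ⟨_, ⟨c, hc, rfl⟩, a, ha, rfl⟩
    obtain ⟨d, hd, b, hb, e1⟩ := (eT _).1 (h2 hc).2.1
    obtain ⟨d', hd', b', hb', e2⟩ := (eU _).1 (h2 hc).2.2
    exact ⟨(eT _).2 ⟨d, hd, b + a, H.add_mem hb ha.1, by rw [e1, add_assoc]⟩,
      (eU _).2 ⟨d', hd', b' + a, K.add_mem hb' ha.2, by rw [e2, add_assoc]⟩⟩

theorem series_gen (hp : p ≠ 0) [IsAddTorsionFree M] {T : Set M} (hT : seriesGen T)
    (hA : seriesAdm π T) : Rat p (seriesG p π w T) := by
  classical
  rcases T.eq_empty_or_nonempty with rfl | ⟨x0, hx0⟩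
  · exact series_finite p w Set.finite_empty
  obtain ⟨H, ⟨s, rfl⟩, C, hC, eT⟩ := hT
  have hcl : AddSubmonoid.closure ((s.erase 0 : Finset M) : Set M) =
      AddSubmonoid.closure (s : Set M) := by
    refine le_antisymm (AddSubmonoid.closure_mono (by simp)) ?_
    rw [AddSubmonoid.closure_le]
    intro x hx
    by_cases h : x = 0
    · rw [h]; exact zero_mem _
    · exact AddSubmonoid.subset_closure (by simpa [h] using hx)
  have hadd : ∀ x ∈ T, ∀ a ∈ AddSubmonoid.closure (s : Set M), x + a ∈ T := by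
    intro x hx a ha
    obtain ⟨c, hc, b, hb, rfl⟩ := (eT x).1 hx
    exact (eT _).2 ⟨c, hc, b + a, add_mem hb ha, add_assoc _ _ _⟩
  refine series_convex p w hp (s.erase 0) (fun h hh => ?_) T C hC hA ?_ ?_
  · obtain ⟨h0, hh⟩ := Finset.mem_erase.1 hh
    have hk : ∀ k : ℕ, x0 + k • h ∈ T := fun k =>
      hadd x0 hx0 _ (nsmul_mem (AddSubmonoid.subset_closure (by simpa using hh)) k)
    by_contra hneg
    rcases (not_lt.1 hneg).lt_or_eq with hlt | heq
    · have h1 := hA.1 _ (hk ((π x0).toNat + 1))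
      rw [map_add, map_nsmul, nsmul_eq_mul] at h1
      have h2 := hA.1 _ hx0
      push_cast at h1
      rw [Int.toNat_of_nonneg h2] at h1
      nlinarith
    · refine Set.infinite_of_injective_forall_mem (f := fun k : ℕ => x0 + k • h) ?_ ?_
        (hA.2 (π x0))
      · intro k l hkl
        have h1 : k • h = l • h := add_left_cancel hkl
        have h2 : addOrderOf h = 0 :=
          addOrderOf_eq_zero (not_isOfFinAddOrder_of_isAddTorsionFree h0)
        have h3 := nsmul_eq_nsmul_iff_modEq.1 h1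
        rw [h2] at h3
        simpa using h3
      · intro k
        exact ⟨hk k, by rw [map_add, map_nsmul, heq]; simp⟩
  · rw [hcl]
    exact fun x hx => (eT x).1 hx
  · rw [hcl]
    exact fun x hx a ha _ _ _ => hadd x hx a ha

theorem series_list (hp : p ≠ 0) [IsAddTorsionFree M] (k : ℕ) (L : List (Set M))
    (hk : L.length = k) (hL : ∀ T ∈ L, seriesGen T) (hA : seriesAdm π {x | ∃ T ∈ L, x ∈ T}) :
    Rat p (seriesG p π w {x | ∃ T ∈ L, x ∈ T}) := by
  induction k generalizing L with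
  | zero =>
    rw [List.length_eq_zero_iff] at hk
    subst hk
    exact series_finite p w (by simp)
  | succ k ih =>
    rcases L with _ | ⟨T, L⟩
    · simp at hk
    have e1 : {x | ∃ T' ∈ T :: L, x ∈ T'} = T ∪ {x | ∃ T' ∈ L, x ∈ T'} := by
      ext x; simp
    have e2 : T ∩ {x | ∃ T' ∈ L, x ∈ T'} = {x | ∃ T' ∈ L.map (T ∩ ·), x ∈ T'} := by
      ext x
      simp only [Set.mem_inter_iff, Set.mem_ofPred_eq, List.mem_map]
      constructor
      · rintro ⟨h1, U, hU, h2⟩
        exact ⟨_, ⟨U, hU, rfl⟩, h1, h2⟩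
      · rintro ⟨_, ⟨U, hU, rfl⟩, h1, h2⟩
        exact ⟨h1, U, hU, h2⟩
    rw [e1] at hA ⊢
    have hA1 := hA.mono Set.subset_union_left
    have hA2 := hA.mono Set.subset_union_right
    have hT := hL T (List.mem_cons_self ..)
    have hk' : L.length = k := by simpa using hk
    rw [eq_sub_of_add_eq (series_union_inter p w hA1 hA2)]
    refine series_sub p (Rat.add p (series_gen p w hp hT hA1)
      (ih L hk' (fun U hU => hL U (List.mem_cons_of_mem _ hU)) hA2)) ?_
    rw [e2]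
    refine ih _ (by simpa using hk') (fun U hU => ?_) (e2 ▸ hA1.mono Set.inter_subset_left)
    obtain ⟨V, hV, rfl⟩ := List.mem_map.1 hU
    exact hT.inter (hL V (List.mem_cons_of_mem _ hV))

end

theorem rat_of_semilinear (hp : p ≠ 0) {M : Type} [AddCommGroup M] [IsAddTorsionFree M]
    (S : Set M) (hS : IsSemilinearSet S) (π w : M →+ ℤ) (h0 : ∀ n ∈ S, 0 ≤ π n)
    (hfin : ∀ j : ℤ, {n ∈ S | π n = j}.Finite) :
    Rat p (PowerSeries.mk fun j : ℕ => ∑ᶠ n ∈ {n ∈ S | π n = j}, (p : ℚ) ^ w n) := by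
  obtain ⟨F, hF, rfl⟩ := isSemilinearSet_iff.1 hS
  have e : ⋃₀ (F : Set (Set M)) = {x | ∃ T ∈ F.toList, x ∈ T} := by
    ext x; simp
  have hA : seriesAdm π (⋃₀ (F : Set (Set M))) := ⟨h0, hfin⟩
  change Rat p (seriesG p π w _)
  rw [e] at hA ⊢
  refine series_list p w hp _ _ rfl (fun T hT => ?_) hA
  obtain ⟨a, P, hP, rfl⟩ := isLinearSet_iff_exists_fg_eq_vadd.1 (hF T (Finset.mem_toList.1 hT))
  refine ⟨P, hP, {a}, Set.finite_singleton a, fun x => ?_⟩
  simp only [Set.mem_vadd_set, Set.mem_singleton_iff, exists_eq_left, vadd_eq_add,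
    SetLike.mem_coe]
  exact ⟨fun ⟨b, hb, e⟩ => ⟨b, hb, e.symm⟩, fun ⟨b, hb, e⟩ => ⟨b, hb, e.symm⟩⟩

end Pool.Agent.Lib.PadicQE
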