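import Pool.Agent.Lib.PadicQE.Balls
import Pool.Agent.Lib.PadicQE.Series

namespace Pool.Agent.Lib.PadicQE

variable {p : ℕ} [hp : Fact p.Prime]

omit hp in
theorem count_finsum {M : Type} {s : Set M} (T : Finset M) {f : M → ℚ} (h1 : ∀ n ∈ T, n ∈ s)
    (h2 : ∀ n ∈ s, f n ≠ 0 → n ∈ T) : ∑ᶠ n ∈ s, f n = ∑ n ∈ T, f n :=
  finsum_mem_eq_sum_of_inter_support_eq f
    (Set.ext fun n => ⟨fun h => ⟨h2 n h.1 h.2, h.2⟩, fun h => ⟨h1 n h.1, h.2⟩⟩)

open Classical in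
theorem count_cnt {ι : Type} [Fintype ι] [DecidableEq ι] (L : ℕ) (Z : Set (ι → ℚ_[p])) :
    cnt p L Z = ∑ a : ι → Fin (p ^ L), if (fun i => ((a i : ℕ) : ℚ_[p])) ∈ Z then 1 else 0 := by
  rw [cnt, Nat.card_eq_fintype_card, Fintype.card_subtype, Finset.card_filter]

theorem count_ne_zero {ι : Type} {L : ℕ} {Z : Set (ι → ℚ_[p])} (h : cnt p L Z ≠ 0) :
    ∃ x, x ∈ Z := by
  obtain ⟨⟨a, ha⟩⟩ := (Nat.card_ne_zero.1 h).1
  exact ⟨_, ha⟩

theorem count_int {t t' : ℚ_[p]} {ρ : ℤ} (hρ : 0 ≤ ρ) (ht : ‖t‖ ≤ 1)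
    (h : ‖t' - t‖ ≤ (p : ℝ) ^ (-ρ)) : ‖t'‖ ≤ 1 := by
  rw [← sub_add_cancel t' t]
  exact (Padic.nonarchimedean _ _).trans (max_le
    (h.trans (zpow_le_one_of_nonpos₀ one_lt_p.le (by omega))) ht)

theorem count_maxBall {Z Z' : Set ℚ_[p]} (e : ∀ t, ‖t‖ ≤ 1 → (t ∈ Z ↔ t ∈ Z')) {ρ : ℤ}
    {t : ℚ_[p]} (h : MaxBall Z ρ t) : MaxBall Z' ρ t := by
  obtain ⟨h1, h2, h3, h4⟩ := h
  refine ⟨h1, h2, fun t' h => (e t' (count_int h1 h2 h)).1 (h3 t' h), ?_⟩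
  rcases eq_or_ne ρ 0 with h0 | h0
  · exact Or.inl h0
  · obtain ⟨t', h5, h6⟩ := h4.resolve_left h0
    exact Or.inr ⟨t', h5, fun h => h6 ((e t' (count_int (by omega) h2 h5)).2 h)⟩

theorem count_many {Z : Set ℚ_[p]} {ρ : ℤ} {k : ℕ}
    (h : Many {t | MaxBall Z ρ t} ρ (k + 1)) : 0 ≤ ρ ∧ ∃ t, t ∈ Z := by
  obtain ⟨T, h1, h2, -⟩ := h
  obtain ⟨t, ht⟩ := Finset.card_pos.1 (show 0 < T.card by omega)
  obtain ⟨h3, -, h4, -⟩ := h2 t ht
  exact ⟨h3, t, h4 t (by rw [sub_self, norm_zero]; exact (zpow_pos p_pos _).le)⟩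

open Classical in
theorem count_split {m : ℕ} (Z : Set (Fin (m + 1) → ℚ_[p])) (L K : ℕ)
    (hZ : ∀ x y : Fin (m + 1) → ℚ_[p], (∀ i, ‖x i‖ ≤ 1) →
      (∀ i, ‖x i - y i‖ ≤ (p : ℝ) ^ (-(L : ℤ))) → x ∈ Z → y ∈ Z)
    (hK : ∀ (x : Fin m → ℚ_[p]) ρ k,
      Many {t | MaxBall {t | (Fin.cons t x : Fin (m + 1) → ℚ_[p]) ∈ Z} ρ t} ρ k → k ≤ K) :
    cnt p L Z = ∑ ρ ∈ Finset.range (L + 1), ∑ k ∈ Finset.range K, p ^ (L - ρ) *
      cnt p L {x : Fin m → ℚ_[p] |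
        Many {t | MaxBall {t | (Fin.cons t x : Fin (m + 1) → ℚ_[p]) ∈ Z} ρ t} ρ (k + 1)} := by
  have h1 : ∀ a : Fin m → Fin (p ^ L),
      (∑ b : Fin (p ^ L), if (fun i => (((Fin.consEquiv fun _ => Fin (p ^ L)) (b, a) i : ℕ) :
        ℚ_[p])) ∈ Z then 1 else 0) = ∑ ρ ∈ Finset.range (L + 1), ∑ k ∈ Finset.range K,
        if Many {t | MaxBall {t | (Fin.cons t (fun i => ((a i : ℕ) : ℚ_[p])) :
          Fin (m + 1) → ℚ_[p]) ∈ Z} ρ t} ρ (k + 1) then p ^ (L - ρ) else 0 := by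
    intro a
    rw [← card_eq_sum _ L K ?_ (hK _), Nat.card_eq_fintype_card, Fintype.card_subtype,
      Finset.card_filter]
    · refine Finset.sum_congr rfl fun b _ => if_congr ?_ rfl rfl
      rw [Set.mem_ofPred_eq]
      refine iff_of_eq (congrArg (· ∈ Z) (funext fun i => ?_))
      cases i using Fin.cases <;> simp [Fin.consEquiv]
    · intro t t' h1 h2 h3
      refine hZ _ _ (fun i => ?_) (fun i => ?_) h3
      · cases i using Fin.cases
        · simpa using h1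
        · simpa using IsUltrametricDist.norm_natCast_le_one ℚ_[p] _
      · cases i using Fin.cases
        · simpa using h2
        · simp
  rw [count_cnt, ← (Fin.consEquiv fun _ : Fin (m + 1) => Fin (p ^ L)).sum_comp,
    Fintype.sum_prod_type_right, Finset.sum_congr rfl fun a _ => h1 a, Finset.sum_comm]
  refine Finset.sum_congr rfl fun ρ _ => ?_
  rw [Finset.sum_comm]
  refine Finset.sum_congr rfl fun k _ => ?_
  rw [count_cnt, Finset.mul_sum]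
  refine Finset.sum_congr rfl fun a _ => ?_
  simp only [Set.mem_ofPred_eq, mul_ite, mul_one, mul_zero]

theorem count_fin (m : ℕ) : ∀ {M : Type} [AddCommGroup M] [AddMonoid.FG M]
    [IsAddTorsionFree M] {X : Set ((Fin m → ℚ_[p]) × M)}
    (_ : Def p (PF p (Fin m) : Set ((Fin m → ℚ_[p]) → ℚ_[p])) X) (l π w : M →+ ℤ)
    (_ : ∀ x ∈ X, 0 ≤ l x.2 ∧ 0 ≤ π x.2)
    (_ : ∀ j : ℤ, {n | π n = j ∧ ∃ x, (x, n) ∈ X}.Finite)
    (_ : ∀ n (x y : Fin m → ℚ_[p]), (∀ i, ‖x i‖ ≤ 1) →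
      (∀ i, ‖x i - y i‖ ≤ (p : ℝ) ^ (-l n)) → (x, n) ∈ X → (y, n) ∈ X),
    Rat p (PowerSeries.mk fun j : ℕ => ∑ᶠ n ∈ {n | π n = j},
      (p : ℚ) ^ w n * (cnt p (l n).toNat {x | (x, n) ∈ X} : ℚ)) := by
  classical
  induction m with
  | zero =>
    intro M _ _ _ X hX l π w h0 hfin hinv
    have h1 := rat_of_semilinear p hp.out.ne_zero _ (hX.slice default) π w
      (fun n hn => (h0 _ hn).2) fun j => (hfin j).subset fun n hn => ⟨hn.2, _, hn.1⟩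
    refine (congrArg (Rat p) (congrArg PowerSeries.mk (funext fun j => ?_))).mp h1
    rw [finsum_mem_def, finsum_mem_def]
    refine finsum_congr fun n => ?_
    have h4 : ∀ x : Fin 0 → ℚ_[p], (x, n) ∈ X ↔ (default, n) ∈ X := fun x => by
      rw [Subsingleton.elim x default]
    rw [Set.indicator_apply, Set.indicator_apply, count_cnt, Fintype.sum_unique]
    simp only [Set.mem_ofPred_eq, h4]
    by_cases h2 : (default, n) ∈ X <;> by_cases h3 : π n = j <;> simp [h2, h3]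
  | succ m ih =>
    intro M _ _ _ X hX l π w h0 hfin hinv
    have hX1 : Def p (adj p (PF p (Fin m)) : Set ((Fin m → ℚ_[p]) × ℚ_[p] → ℚ_[p]))
        {x : ((Fin m → ℚ_[p]) × ℚ_[p]) × M |
          ((Fin.cons x.1.2 x.1.1 : Fin (m + 1) → ℚ_[p]), x.2) ∈ X} := by
      refine hX.comap (fun y : (Fin m → ℚ_[p]) × ℚ_[p] =>
        (Fin.cons y.2 y.1 : Fin (m + 1) → ℚ_[p])) (AddMonoidHom.id M) (PF_comp _ fun i => ?_)
      cases i using Fin.cases
      · exact snd_mem_adj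
      · exact fst_mem_adj (coord_mem_PF _)
    obtain ⟨K, hK⟩ := few_balls hX1
    let X' : ℕ → Set ((Fin m → ℚ_[p]) × M × ℤ) := fun k => {x | x.2.2 ≤ l x.2.1 ∧
      Many {t | MaxBall {t | ((Fin.cons t x.1 : Fin (m + 1) → ℚ_[p]), x.2.1) ∈ X} x.2.2 t}
        x.2.2 (k + 1)}
    have h1 : ∀ k, ∀ x ∈ X' k, 0 ≤ x.2.2 ∧ x.2.2 ≤ l x.2.1 ∧ ∃ y, (y, x.2.1) ∈ X := by
      intro k x hx
      obtain ⟨h1, t, h2⟩ := count_many hx.2
      exact ⟨h1, hx.1, _, h2⟩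
    have h2 : ∀ k ∈ Finset.range K, Rat p (PowerSeries.mk fun j : ℕ =>
        ∑ᶠ n ∈ {n : M × ℤ | π n.1 = j}, (p : ℚ) ^ (w n.1 + l n.1 - n.2) *
          (cnt p (l n.1).toNat {x | (x, n) ∈ X' k} : ℚ)) := by
      intro k _
      refine ih (X := X' k) ?_ (l.comp (AddMonoidHom.fst M ℤ)) (π.comp (AddMonoidHom.fst M ℤ))
        ((w + l).comp (AddMonoidHom.fst M ℤ) - AddMonoidHom.snd M ℤ) ?_ ?_ ?_
      · refine ((Def.nonneg (l.comp (AddMonoidHom.fst M ℤ) - AddMonoidHom.snd M ℤ) 0).and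
          (def_many (def_maxBall hX1) (AddMonoidHom.snd M ℤ) (k + 1))).congr fun b n => ?_
        exact and_congr (by simp) Iff.rfl
      · intro x hx
        obtain ⟨-, -, y, hy⟩ := h1 k x hx
        exact h0 _ hy
      · intro j
        refine ((hfin j).biUnion fun n _ =>
          ((Set.finite_singleton n).prod (Set.finite_Icc 0 (l n)))).subset ?_
        rintro ⟨n, ρ⟩ ⟨e, x, hx⟩
        obtain ⟨h3, h4, h5⟩ := h1 k _ hx
        exact Set.mem_biUnion (x := n) ⟨e, h5⟩ ⟨rfl, h3, h4⟩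
      · rintro ⟨n, ρ⟩ x y hx hxy h3
        obtain ⟨h4, h5, -⟩ := h1 k _ h3
        obtain ⟨h6, T, h7, h8, h9⟩ := h3
        have hy : ∀ i, ‖y i‖ ≤ 1 := fun i =>
          count_int (h4.trans h5) (hx i) (by rw [norm_sub_rev]; exact hxy i)
        refine ⟨h6, T, h7, fun t ht => count_maxBall (fun t ht => ?_) (h8 t ht), h9⟩
        constructor <;> refine hinv n _ _ (fun i => ?_) fun i => ?_ <;> cases i using Fin.cases
        · exact ht
        · exact hx _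
        · simpa using (zpow_pos p_pos _).le
        · exact hxy _
        · exact ht
        · exact hy _
        · simpa using (zpow_pos p_pos _).le
        · rw [norm_sub_rev]; exact hxy _
    refine (congrArg (Rat p) (PowerSeries.ext fun j => ?_)).mp (Rat.sum p _ h2)
    simp only [map_sum, PowerSeries.coeff_mk]
    let T := (hfin j).toFinset
    have hT : ∀ n, n ∈ T ↔ π n = j ∧ ∃ x, (x, n) ∈ X := fun n => (hfin j).mem_toFinset
    let e : (Σ _ : M, ℕ) ↪ M × ℤ := ⟨fun x => (x.1, x.2), by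
      rintro ⟨a, b⟩ ⟨c, d⟩ h
      obtain ⟨rfl, h⟩ := Prod.mk.inj h
      obtain rfl : b = d := Nat.cast_injective (R := ℤ) h
      rfl⟩
    refine Eq.trans ?_ (count_finsum T (fun n hn => ((hT n).1 hn).1) fun n hn h => ?_).symm
    swap
    · exact (hT n).2 ⟨hn, count_ne_zero (Nat.cast_ne_zero.1 (right_ne_zero_of_mul h))⟩
    rw [Finset.sum_congr rfl fun k _ => count_finsum
      ((T.sigma fun n => Finset.range ((l n).toNat + 1)).map e) ?_ ?_]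
    · simp only [Finset.sum_map, Finset.sum_sigma]
      rw [Finset.sum_comm]
      refine Finset.sum_congr rfl fun n hn => ?_
      obtain ⟨-, x, hx⟩ := (hT n).1 hn
      obtain ⟨L, hL⟩ := Int.eq_ofNat_of_zero_le (h0 _ hx).1
      replace hL : l n = L := hL
      rw [Finset.sum_comm, hL, Int.toNat_natCast,
        count_split {x | (x, n) ∈ X} L K (hL ▸ hinv n) (fun x => hK x n), Nat.cast_sum,
        Finset.mul_sum]
      refine Finset.sum_congr rfl fun ρ hρ => ?_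
      have h3 : ρ ≤ L := Nat.lt_succ_iff.1 (Finset.mem_range.1 hρ)
      rw [Nat.cast_sum, Finset.mul_sum]
      refine Finset.sum_congr rfl fun k _ => ?_
      change (p : ℚ) ^ (w n + l n - ρ) * (cnt p (l n).toNat {x | (x, n, (ρ : ℤ)) ∈ X' k} : ℚ) = _
      rw [hL, Int.toNat_natCast, Nat.cast_mul, Nat.cast_pow, ← mul_assoc, ← zpow_natCast,
        ← zpow_add₀ (Nat.cast_ne_zero.2 hp.out.ne_zero), Nat.cast_sub h3, add_sub_assoc]
      congr 3
      exact Set.ext fun x => and_iff_right (by change (ρ : ℤ) ≤ l n; omega)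
    · intro n hn
      obtain ⟨a, ha, rfl⟩ := Finset.mem_map.1 hn
      exact ((hT _).1 (Finset.mem_sigma.1 ha).1).1
    · rintro ⟨n, ρ⟩ hn h
      obtain ⟨x, hx⟩ := count_ne_zero (Nat.cast_ne_zero.1 (right_ne_zero_of_mul h))
      obtain ⟨h3, h4, h5⟩ := h1 k _ hx
      refine Finset.mem_map.2 ⟨⟨n, ρ.toNat⟩, Finset.mem_sigma.2 ⟨(hT n).2 ⟨hn, h5⟩, ?_⟩, ?_⟩
      · simp only at h3 h4
        simp only [Finset.mem_range]
        omega
      · exact Prod.ext rfl (Int.toNat_of_nonneg h3)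

theorem count_rat {ι : Type} [Fintype ι] {M : Type} [AddCommGroup M] [AddMonoid.FG M]
    [IsAddTorsionFree M] {X : Set ((ι → ℚ_[p]) × M)}
    (hX : Def p (PF p ι : Set ((ι → ℚ_[p]) → ℚ_[p])) X) (l π w : M →+ ℤ)
    (h0 : ∀ x ∈ X, 0 ≤ l x.2 ∧ 0 ≤ π x.2)
    (hfin : ∀ j : ℤ, {n | π n = j ∧ ∃ x, (x, n) ∈ X}.Finite)
    (hinv : ∀ n (x y : ι → ℚ_[p]), (∀ i, ‖x i‖ ≤ 1) → (∀ i, ‖x i - y i‖ ≤ (p : ℝ) ^ (-l n)) →
      (x, n) ∈ X → (y, n) ∈ X) :
    Rat p (PowerSeries.mk fun j : ℕ => ∑ᶠ n ∈ {n | π n = j},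
      (p : ℚ) ^ w n * (cnt p (l n).toNat {x | (x, n) ∈ X} : ℚ)) := by
  let e := Fintype.equivFin ι
  have h1 := count_fin (Fintype.card ι)
    (hX.comap (fun (y : Fin (Fintype.card ι) → ℚ_[p]) (i : ι) => y (e i)) (AddMonoidHom.id M)
      (PF_comp _ fun i => coord_mem_PF (e i))) l π w (fun x hx => h0 _ hx)
    (fun j => (hfin j).subset fun n hn => ⟨hn.1, hn.2.elim fun x hx => ⟨_, hx⟩⟩)
    fun n x y hx hxy h => hinv n _ _ (fun i => hx _) (fun i => hxy _) h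
  refine (congrArg (Rat p) (congrArg PowerSeries.mk (funext fun j => ?_))).mp h1
  refine finsum_mem_congr rfl fun n _ => ?_
  congr 2
  exact Nat.card_congr ((Equiv.arrowCongr e.symm (Equiv.refl _)).subtypeEquiv fun a => Iff.rfl)

end Pool.Agent.Lib.PadicQE
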