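import Mathlib

/-!
Definable sets over the p-adic numbers, relative to leading terms and Presburger arithmetic.
-/

namespace Pool.Agent.Lib.PadicQE

variable (p : ℕ) [hp : Fact p.Prime]

theorem zpow_lt_one (N : ℕ) : (p : ℝ) ^ (-((N : ℤ) + 1)) < 1 :=
  zpow_lt_one_of_neg₀ (by exact_mod_cast hp.out.one_lt) (by omega)

theorem norm_eq_of_near {N : ℕ} {x y : ℚ_[p]}
    (h : ‖x - y‖ ≤ (p : ℝ) ^ (-((N : ℤ) + 1)) * ‖y‖) : ‖x‖ = ‖y‖ := by
  rcases eq_or_ne y 0 with rfl | hy
  · simpa using h
  · exact Padic.norm_eq_of_norm_sub_lt_right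
      (h.trans_lt (mul_lt_of_lt_one_left (norm_pos_iff.2 hy) (zpow_lt_one p N)))

/-- Two numbers are congruent if they have the same leading term of order `N + 1`. -/
def con (N : ℕ) : Con ℚ_[p] where
  r x y := ‖x - y‖ ≤ (p : ℝ) ^ (-((N : ℤ) + 1)) * ‖y‖
  iseqv :=
    { refl := fun x => by
        rw [sub_self, norm_zero]
        positivity
      symm := fun h => by rw [norm_sub_rev, norm_eq_of_near p h]; exact h
      trans := fun {x y z} h1 h2 => by
        rw [norm_eq_of_near p h2] at h1
        rw [← sub_add_sub_cancel x y z]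
        exact (Padic.nonarchimedean _ _).trans (max_le h1 h2) }
  mul' := fun {w x y z} h1 h2 => by
    rw [show w * y - x * z = (w - x) * y + x * (y - z) by ring]
    refine (Padic.nonarchimedean _ _).trans (max_le ?_ ?_)
    · rw [norm_mul, norm_mul, norm_eq_of_near p h2, ← mul_assoc]
      gcongr
    · rw [norm_mul, norm_mul, mul_left_comm]
      gcongr

/-- The monoid of leading terms, written additively. -/
abbrev RV (N : ℕ) : Type := Additive (con p N).Quotient

/-- The leading term of a number. -/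
noncomputable def code (N : ℕ) (x : ℚ_[p]) : RV p N := Additive.ofMul ((con p N).mk' x)

/-- `X` is described by a semilinear condition on the leading terms of finitely many functions
from `F` and on the second coordinate. -/
def Def {B M : Type} [AddCommMonoid M] (F : Set (B → ℚ_[p])) (X : Set (B × M)) : Prop :=
  ∃ (σ : Type) (_ : Finite σ) (f : σ → B → ℚ_[p]) (N : ℕ) (S : Set ((σ → RV p N) × M)),
    (∀ i, f i ∈ F) ∧ IsSemilinearSet S ∧
      ∀ b n, (b, n) ∈ X ↔ ((fun i => code p N (f i b)), n) ∈ S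

/-- A definable subset of the base. -/
def DefSet {B : Type} (F : Set (B → ℚ_[p])) (D : Set B) : Prop :=
  Def p F {x : B × Unit | x.1 ∈ D}

/-- On `D` all leading terms of `g` are definable. -/
def DefFun {B : Type} (F : Set (B → ℚ_[p])) (D : Set B) (g : B → ℚ_[p]) : Prop :=
  ∀ N, Def p F {x : B × RV p N | x.1 ∈ D ∧ code p N (g x.1) = x.2}

/-- The functions of `F` together with one new coordinate. -/
def plus {B : Type} (F : Set (B → ℚ_[p])) : Set (B × ℚ_[p] → ℚ_[p]) :=
  {g | (∃ f ∈ F, g = fun x => f x.1) ∨ g = Prod.snd}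

/-- Polynomials in one new coordinate with coefficients in `F`. -/
noncomputable def adj {B : Type} (F : Subring (B → ℚ_[p])) : Subring (B × ℚ_[p] → ℚ_[p]) :=
  Subring.closure (plus p (F : Set (B → ℚ_[p])))

/-- Evaluation at a point of the base. -/
noncomputable def ev {B : Type} (F : Subring (B → ℚ_[p])) (b : B) : F →+* ℚ_[p] :=
  (Pi.evalRingHom (fun _ : B => ℚ_[p]) b).comp F.subtype

/-- Integral polynomial functions. -/
noncomputable def PF (ι : Type) : Subring ((ι → ℚ_[p]) → ℚ_[p]) :=
  Subring.closure (Set.range fun (i : ι) (x : ι → ℚ_[p]) => x i)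

/-- The number of points of `Z` whose coordinates are natural numbers below `p ^ L`. -/
noncomputable def cnt {ι : Type} (L : ℕ) (Z : Set (ι → ℚ_[p])) : ℕ :=
  Nat.card {a : ι → Fin (p ^ L) // (fun i => ((a i : ℕ) : ℚ_[p])) ∈ Z}

omit hp in
/-- A rational power series whose denominator is a product of factors `1 - p ^ a Y ^ b`. -/
def Rat (G : PowerSeries ℚ) : Prop :=
  ∃ (l : Multiset (ℤ × ℕ)) (P : Polynomial ℚ), (∀ ab ∈ l, 1 ≤ ab.2) ∧
    (l.map fun ab => 1 - PowerSeries.C ((p : ℚ) ^ ab.1) * PowerSeries.X ^ ab.2).prod * G = P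

end Pool.Agent.Lib.PadicQE
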