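import Pool.Agent.Lib.PadicQE.Defs

namespace Pool.Agent.Lib.PadicQE

open Polynomial

variable (p : ℕ) [hp : Fact p.Prime]

theorem prep_eval_le {h : ℚ_[p][X]} {B : ℝ} (hB : ∀ i, ‖h.coeff i‖ ≤ B) {u : ℚ_[p]}
    (hu : ‖u‖ ≤ 1) : ‖h.eval u‖ ≤ B := by
  have hB0 : 0 ≤ B := (norm_nonneg _).trans (hB 0)
  rw [eval_eq_sum_range]
  refine IsUltrametricDist.norm_sum_le_of_forall_le_of_nonneg hB0 fun i _ => ?_
  rw [norm_mul, norm_pow]
  exact (mul_le_of_le_one_right (norm_nonneg _) (pow_le_one₀ (norm_nonneg _) hu)).trans (hB i)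

theorem prep_nat_le (n : ℕ) : ‖(n : ℚ_[p])‖ ≤ 1 := by
  simpa using Padic.norm_int_le_one (p := p) (n : ℤ)

theorem prep_nat_ge {n d : ℕ} (h0 : n ≠ 0) (hd : n ≤ d) : 1 ≤ (p : ℝ) ^ d * ‖(n : ℚ_[p])‖ := by
  have hp1 : (1 : ℝ) < p := by exact_mod_cast hp.out.one_lt
  rw [Padic.norm_eq_zpow_neg_valuation (by exact_mod_cast h0), Padic.valuation_natCast,
    ← zpow_natCast, ← zpow_add₀ (by positivity)]
  refine one_le_zpow₀ hp1.le ?_
  have h1 := padicValNat_le_nat_log (p := p) n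
  have h2 := Nat.log_le_self p n
  omega

theorem prep_hasse_coeff_le {g : ℚ_[p][X]} {B : ℝ} {j : ℕ} (hB : ∀ i, j ≤ i → ‖g.coeff i‖ ≤ B)
    (n : ℕ) : ‖(hasseDeriv j g).coeff n‖ ≤ B := by
  rw [hasseDeriv_coeff, norm_mul]
  exact (mul_le_of_le_one_left (norm_nonneg _) (prep_nat_le p _)).trans (hB _ (by omega))

theorem prep_hensel_one {h : ℚ_[p][X]} (hc : ∀ i, ‖h.coeff i‖ ≤ 1)
    (H : ‖h.coeff 0‖ < ‖h.coeff 1‖ ^ 2) : ∃ z, h.eval z = 0 ∧ ‖z‖ < ‖h.coeff 1‖ := by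
  have hl : h ∈ lifts (algebraMap ℤ_[p] ℚ_[p]) := by
    rw [lifts_iff_coeff_lifts]
    exact fun n => ⟨⟨h.coeff n, hc n⟩, rfl⟩
  obtain ⟨F, rfl⟩ := (mem_lifts _).1 hl
  have e0 : ‖F.aeval (0 : ℤ_[p])‖ = ‖(F.map (algebraMap ℤ_[p] ℚ_[p])).coeff 0‖ := by
    rw [coeff_map, coe_aeval_eq_eval, ← coeff_zero_eq_eval_zero]; rfl
  have e1 : ‖F.derivative.aeval (0 : ℤ_[p])‖ = ‖(F.map (algebraMap ℤ_[p] ℚ_[p])).coeff 1‖ := by
    rw [coeff_map, coe_aeval_eq_eval, ← coeff_zero_eq_eval_zero, coeff_derivative]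
    simp
  obtain ⟨z, hz, hz', -⟩ := hensels_lemma (F := F) (a := (0 : ℤ_[p])) (by rw [e0, e1]; exact H)
  refine ⟨algebraMap ℤ_[p] ℚ_[p] z, ?_, ?_⟩
  · rw [eval_map, eval₂_hom, ← coe_aeval_eq_eval, hz, map_zero]
  · rw [← e1]
    simpa using hz'

theorem prep_hensel {h : ℚ_[p][X]} {lam : ℚ_[p]} (hc : ∀ i, ‖h.coeff i‖ ≤ ‖lam‖)
    (H : ‖h.coeff 0‖ * ‖lam‖ < ‖h.coeff 1‖ ^ 2) :
    ∃ z, h.eval z = 0 ∧ ‖z‖ < 1 ∧ ‖z‖ * ‖h.coeff 1‖ = ‖h.coeff 0‖ := by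
  have h1 : 0 < ‖h.coeff 1‖ := by
    rcases (norm_nonneg (h.coeff 1)).eq_or_lt with h0 | h0
    · rw [← h0] at H
      have : 0 ≤ ‖h.coeff 0‖ * ‖lam‖ := by positivity
      linarith
    · exact h0
  have hl : 0 < ‖lam‖ := h1.trans_le (hc 1)
  have hl0 : lam ≠ 0 := norm_pos_iff.1 hl
  obtain ⟨z, hz, hz'⟩ := prep_hensel_one p (h := C lam⁻¹ * h)
    (fun i => by
      rw [coeff_C_mul, norm_mul, norm_inv, inv_mul_le_iff₀ hl, mul_one]
      exact hc i)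
    (by
      rw [coeff_C_mul, coeff_C_mul, norm_mul, norm_mul, norm_inv, inv_mul_lt_iff₀ hl]
      have : ‖lam‖ * (‖lam‖⁻¹ * ‖h.coeff 1‖) ^ 2 = ‖h.coeff 1‖ ^ 2 / ‖lam‖ := by
        field_simp
      rw [this, lt_div_iff₀ hl]
      exact H)
  rw [coeff_C_mul, norm_mul, norm_inv, lt_inv_mul_iff₀ hl] at hz'
  have hz1 : ‖z‖ < 1 := by
    have := hz'.trans_le (hc 1)
    nlinarith
  have hz0 : h.eval z = 0 := by
    rw [eval_mul, eval_C] at hz
    exact (mul_eq_zero.1 hz).resolve_left (inv_ne_zero hl0)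
  refine ⟨z, hz0, hz1, ?_⟩
  have hk : ‖h.divX.divX.eval z‖ ≤ ‖lam‖ :=
    prep_eval_le p (fun i => by rw [coeff_divX, coeff_divX]; exact hc _) hz1.le
  have e1 : h.eval z = z * h.divX.eval z + h.coeff 0 := by
    have := congrArg (eval z) (X_mul_divX_add h)
    rw [eval_add, eval_mul, eval_X, eval_C] at this
    exact this.symm
  have e2 : h.divX.eval z = z * h.divX.divX.eval z + h.coeff 1 := by
    conv_lhs => rw [← X_mul_divX_add h.divX]
    simp [coeff_divX]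
  have e3 : ‖h.divX.eval z‖ = ‖h.coeff 1‖ := by
    refine Padic.norm_eq_of_norm_sub_lt_right ?_
    rw [e2, add_sub_cancel_right, norm_mul]
    refine lt_of_le_of_lt ?_ hz'
    rw [mul_comm]
    gcongr
  rw [← e3, ← norm_mul, ← norm_neg, eq_neg_of_add_eq_zero_left (e1.symm.trans hz0), neg_neg]

/-- The polynomial `u ↦ f (a + s u)`. -/
noncomputable def prepG (f : ℚ_[p][X]) (a s : ℚ_[p]) : ℚ_[p][X] := (taylor a f).comp (C s * X)

theorem prepG_coeff (f : ℚ_[p][X]) (a s : ℚ_[p]) (i : ℕ) :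
    (prepG p f a s).coeff i = (hasseDeriv i f).eval a * s ^ i := by
  rw [prepG, comp_C_mul_X_coeff, taylor_coeff]

theorem prepG_eval (f : ℚ_[p][X]) (a s u : ℚ_[p]) :
    (prepG p f a s).eval u = f.eval (a + s * u) := by
  rw [prepG, eval_comp, taylor_eval]
  simp [add_comm]

theorem prepG_hasse (f : ℚ_[p][X]) (a s u : ℚ_[p]) (j : ℕ) :
    (hasseDeriv j (prepG p f a s)).eval u = (hasseDeriv j f).eval (a + s * u) * s ^ j := by
  rw [← taylor_coeff, ← prepG_coeff]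
  congr 1
  refine Polynomial.funext fun x => ?_
  rw [taylor_eval, prepG_eval, prepG_eval]
  congr 1
  ring

theorem prepG_shift {f : ℚ_[p][X]} {a s u : ℚ_[p]} {j : ℕ} {B : ℝ} (hu : ‖u‖ ≤ 1)
    (hB : ∀ i, j ≤ i → ‖(hasseDeriv i f).eval a * s ^ i‖ ≤ B) :
    ‖(hasseDeriv j f).eval (a + s * u) * s ^ j‖ ≤ B := by
  rw [← prepG_hasse]
  exact prep_eval_le p (prep_hasse_coeff_le p fun i hi => by rw [prepG_coeff]; exact hB i hi) hu

theorem prep_core (d m : ℕ) : ∃ e : ℕ, ∀ g : ℚ_[p][X], g.natDegree ≤ d → ∀ j, d ≤ j + m →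
    (∀ i, j ≤ i → hasseDeriv i g ≠ 0 → ∀ z, (hasseDeriv i g).eval z = 0 → 1 ≤ ‖z‖) →
    ∀ i, j ≤ i → ‖g.coeff i‖ ≤ (p : ℝ) ^ e * ‖g.coeff j‖ := by
  have hp1 : (1 : ℝ) < p := by exact_mod_cast hp.out.one_lt
  induction m with
  | zero =>
    refine ⟨0, fun g hg j hj _ i hi => ?_⟩
    rcases hi.eq_or_lt with rfl | hi
    · simp
    · rw [coeff_eq_zero_of_natDegree_lt (by omega)]
      simp
  | succ m ih =>
    obtain ⟨e, he⟩ := ih
    refine ⟨2 * e + 2 * d, fun g hg j hj hr i hi => ?_⟩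
    have hone : (1 : ℝ) ≤ (p : ℝ) ^ (2 * e + 2 * d) := one_le_pow₀ hp1.le
    rcases hi.eq_or_lt with rfl | hi
    · exact le_mul_of_one_le_left (norm_nonneg _) hone
    by_cases hd : d ≤ j
    · rw [coeff_eq_zero_of_natDegree_lt (by omega)]
      simp only [norm_zero]
      positivity
    have ih := he g hg (j + 1) (by omega) fun i hi => hr i (by omega)
    set lam : ℚ_[p] := ((p : ℚ_[p]) ^ e)⁻¹ * g.coeff (j + 1) with hlam
    have hn : ‖lam‖ = (p : ℝ) ^ e * ‖g.coeff (j + 1)‖ := by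
      rw [hlam, norm_mul, norm_inv, Padic.norm_p_pow, zpow_neg, inv_inv, zpow_natCast]
    refine (ih i hi).trans ?_
    rcases le_or_gt ‖lam‖ ‖g.coeff j‖ with h1 | h1
    · rw [← hn]
      exact h1.trans (le_mul_of_one_le_left (norm_nonneg _) hone)
    have hc : ∀ n, ‖(hasseDeriv j g).coeff n‖ ≤ ‖lam‖ := prep_hasse_coeff_le p fun n hn' => by
      rcases hn'.eq_or_lt with rfl | hn'
      · exact h1.le
      · rw [hn]
        exact ih n hn'
    have c0 : (hasseDeriv j g).coeff 0 = g.coeff j := by simp [hasseDeriv_coeff]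
    have c1 : (hasseDeriv j g).coeff 1 = ((j + 1 : ℕ) : ℚ_[p]) * g.coeff (j + 1) := by
      rw [hasseDeriv_coeff, add_comm 1 j, Nat.choose_succ_self_right]
    have h2 : ‖(hasseDeriv j g).coeff 1‖ ^ 2 ≤ ‖(hasseDeriv j g).coeff 0‖ * ‖lam‖ := by
      by_contra h2
      push Not at h2
      obtain ⟨z, hz, hz1, -⟩ := prep_hensel p hc h2
      refine absurd (hr j le_rfl ?_ z hz) (not_le.2 hz1)
      intro h0
      rw [h0] at h2
      simp at h2
    rw [c0, c1, hn, norm_mul] at h2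
    have h3 := prep_nat_ge p (n := j + 1) (d := d) (by omega) (by omega)
    have h4 : 0 < ‖g.coeff (j + 1)‖ := by
      rcases (norm_nonneg (g.coeff (j + 1))).eq_or_lt with h0 | h0
      · rw [hn, ← h0, mul_zero] at h1
        exact absurd h1 (not_lt.2 (norm_nonneg _))
      · exact h0
    generalize ‖g.coeff (j + 1)‖ = x at h2 h4 ⊢
    generalize ‖g.coeff j‖ = y at h2 ⊢
    generalize ‖((j + 1 : ℕ) : ℚ_[p])‖ = w at h2 h3
    have h5 : w ^ 2 * x ≤ y * (p : ℝ) ^ e := by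
      refine le_of_mul_le_mul_right ?_ h4
      nlinarith
    have h6 : x ≤ ((p : ℝ) ^ d * w) ^ 2 * x :=
      le_mul_of_one_le_left h4.le (one_le_pow₀ h3)
    calc (p : ℝ) ^ e * x ≤ (p : ℝ) ^ e * (((p : ℝ) ^ d * w) ^ 2 * x) := by gcongr
      _ = (p : ℝ) ^ e * ((p : ℝ) ^ d) ^ 2 * (w ^ 2 * x) := by ring
      _ ≤ (p : ℝ) ^ e * ((p : ℝ) ^ d) ^ 2 * (y * (p : ℝ) ^ e) := by gcongr
      _ = (p : ℝ) ^ (2 * e + 2 * d) * y := by ring

theorem prep (d : ℕ) : ∃ e : ℕ, ∀ f : ℚ_[p][X], f.natDegree ≤ d → ∀ (k : ℕ) (c t : ℚ_[p]),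
    (∀ j, k ≤ j → hasseDeriv j f ≠ 0 → ∀ r, (hasseDeriv j f).IsRoot r → ‖t - c‖ ≤ ‖t - r‖) →
    ∀ j, k ≤ j → ‖(hasseDeriv j f).eval c * (t - c) ^ j‖ ≤
      (p : ℝ) ^ e * ‖(hasseDeriv k f).eval t * (t - c) ^ k‖ := by
  have hp1 : (1 : ℝ) < p := by exact_mod_cast hp.out.one_lt
  obtain ⟨e, he⟩ := prep_core p d d
  refine ⟨e, fun f hf k c t hr j hj => ?_⟩
  rcases eq_or_ne (t - c) 0 with hs | hs
  · obtain rfl : t = c := sub_eq_zero.1 hs
    rcases hj.eq_or_lt with rfl | hj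
    · exact le_mul_of_one_le_left (norm_nonneg _) (one_le_pow₀ hp1.le)
    · rw [sub_self, zero_pow (by omega), mul_zero, norm_zero]
      positivity
  have hg : (prepG p f t (t - c)).natDegree ≤ d := by
    rw [natDegree_le_iff_coeff_eq_zero]
    intro N hN
    rw [prepG_coeff, hasseDeriv_eq_zero_of_lt_natDegree _ _ (by omega)]
    simp
  have key := he (prepG p f t (t - c)) hg k (by omega) fun i hi h0 z hz => by
    rw [prepG_hasse] at hz
    have hz' := (mul_eq_zero.1 hz).resolve_right (pow_ne_zero _ hs)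
    have h1 : hasseDeriv i f ≠ 0 := fun h => h0 (Polynomial.funext fun x => by
      rw [prepG_hasse, h]
      simp)
    have h2 := hr i hi h1 _ hz'
    rw [sub_add_cancel_left, norm_neg, norm_mul] at h2
    exact (le_mul_iff_one_le_right (norm_pos_iff.2 hs)).1 h2
  have := prepG_shift p (f := f) (a := t) (s := t - c) (u := -1) (j := j) (by simp)
    (B := (p : ℝ) ^ e * ‖(hasseDeriv k f).eval t * (t - c) ^ k‖) fun i hi => by
      rw [← prepG_coeff, ← prepG_coeff]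
      exact key i (hj.trans hi)
  rwa [show t + (t - c) * -1 = c by ring] at this

theorem approx_root (P : ℚ_[p][X]) (c s : ℚ_[p]) (e M : ℕ) (hM : e ≤ M)
    (h1 : ∀ j, 1 ≤ j → ‖(hasseDeriv j P).eval c * s ^ j‖ ≤
      (p : ℝ) ^ e * ‖(hasseDeriv 1 P).eval (c + s) * s‖)
    (h2 : ‖P.eval (c + s)‖ ≤ (p : ℝ) ^ (-((M : ℤ) + 1)) * ‖(hasseDeriv 1 P).eval (c + s) * s‖) :
    ∃ t, P.IsRoot t ∧ ‖t - (c + s)‖ ≤ (p : ℝ) ^ (-((M : ℤ) + 1)) * ‖s‖ := by
  have hp1 : (1 : ℝ) < p := by exact_mod_cast hp.out.one_lt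
  set gam := (hasseDeriv 1 P).eval (c + s) * s with hgam
  rcases eq_or_ne gam 0 with h0 | h0
  · refine ⟨c + s, ?_, ?_⟩
    · rw [h0, norm_zero, mul_zero] at h2
      exact norm_le_zero_iff.1 h2
    · rw [sub_self, norm_zero]
      positivity
  have hg : 0 < ‖gam‖ := norm_pos_iff.2 h0
  set lam : ℚ_[p] := ((p : ℚ_[p]) ^ e)⁻¹ * gam with hlam
  have hn : ‖lam‖ = (p : ℝ) ^ e * ‖gam‖ := by
    rw [hlam, norm_mul, norm_inv, Padic.norm_p_pow, zpow_neg, inv_inv, zpow_natCast]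
  have c0 : (prepG p P (c + s) s).coeff 0 = P.eval (c + s) := by simp [prepG_coeff]
  have c1 : (prepG p P (c + s) s).coeff 1 = gam := by rw [prepG_coeff, pow_one]
  have hc : ∀ i, ‖(prepG p P (c + s) s).coeff i‖ ≤ ‖lam‖ := fun i => by
    rw [hn]
    rcases Nat.eq_zero_or_pos i with rfl | hi
    · rw [c0]
      refine h2.trans ?_
      gcongr
      exact (zpow_lt_one p M).le.trans (one_le_pow₀ hp1.le)
    · have := prepG_shift p (f := P) (a := c) (s := s) (u := 1) (j := i) (by simp)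
        fun j hj => h1 j (by omega)
      rwa [mul_one, ← prepG_coeff] at this
  have hlt : (p : ℝ) ^ (-((M : ℤ) + 1)) * (p : ℝ) ^ e < 1 := by
    rw [← zpow_natCast, ← zpow_add₀ (by positivity)]
    exact zpow_lt_one_of_neg₀ hp1 (by omega)
  obtain ⟨z, hz, -, hz'⟩ := prep_hensel p hc (by
    rw [c0, c1, hn]
    calc ‖P.eval (c + s)‖ * ((p : ℝ) ^ e * ‖gam‖)
        ≤ ((p : ℝ) ^ (-((M : ℤ) + 1)) * ‖gam‖) * ((p : ℝ) ^ e * ‖gam‖) := by gcongr
      _ = ((p : ℝ) ^ (-((M : ℤ) + 1)) * (p : ℝ) ^ e) * ‖gam‖ ^ 2 := by ring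
      _ < ‖gam‖ ^ 2 := mul_lt_of_lt_one_left (by positivity) hlt)
  rw [prepG_eval] at hz
  refine ⟨c + s + s * z, hz, ?_⟩
  rw [c0, c1] at hz'
  rw [add_sub_cancel_left, norm_mul, mul_comm]
  gcongr
  exact le_of_mul_le_mul_right (hz'.trans_le h2) hg

theorem code_stable (f : ℚ_[p][X]) (c s s' : ℚ_[p]) (e N M : ℕ) (hM : N + e ≤ M)
    (h : ∀ j, ‖(hasseDeriv j f).eval c * s ^ j‖ ≤ (p : ℝ) ^ e * ‖f.eval (c + s)‖)
    (hs : ‖s' - s‖ ≤ (p : ℝ) ^ (-((M : ℤ) + 1)) * ‖s‖) :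
    code p N (f.eval (c + s')) = code p N (f.eval (c + s)) := by
  have hp1 : (1 : ℝ) < p := by exact_mod_cast hp.out.one_lt
  rcases eq_or_ne s 0 with rfl | h0
  · rw [norm_zero, mul_zero, sub_zero] at hs
    rw [norm_le_zero_iff.1 hs]
  have hw : ‖(s' - s) / s‖ ≤ (p : ℝ) ^ (-((M : ℤ) + 1)) := by
    rwa [norm_div, div_le_iff₀ (norm_pos_iff.2 h0)]
  have hc : ∀ i, ‖(prepG p f (c + s) s).coeff i‖ ≤ (p : ℝ) ^ e * ‖f.eval (c + s)‖ := fun i => by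
    have := prepG_shift p (f := f) (a := c) (s := s) (u := 1) (j := i) (by simp) fun j _ => h j
    rwa [mul_one, ← prepG_coeff] at this
  have c0 : (prepG p f (c + s) s).coeff 0 = f.eval (c + s) := by simp [prepG_coeff]
  have e1 : f.eval (c + s') - f.eval (c + s) =
      (s' - s) / s * (prepG p f (c + s) s).divX.eval ((s' - s) / s) := by
    have : f.eval (c + s') = (prepG p f (c + s) s).eval ((s' - s) / s) := by
      rw [prepG_eval, mul_div_cancel₀ _ h0]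
      congr 1
      ring
    rw [this]
    conv_lhs => rw [← X_mul_divX_add (prepG p f (c + s) s)]
    simp [c0]
  have hk : ‖(prepG p f (c + s) s).divX.eval ((s' - s) / s)‖ ≤ (p : ℝ) ^ e * ‖f.eval (c + s)‖ :=
    prep_eval_le p (fun i => by rw [coeff_divX]; exact hc _) (hw.trans (zpow_lt_one p M).le)
  have hle : (p : ℝ) ^ (-((M : ℤ) + 1)) * (p : ℝ) ^ e ≤ (p : ℝ) ^ (-((N : ℤ) + 1)) := by
    rw [← zpow_natCast, ← zpow_add₀ (by positivity)]
    exact zpow_le_zpow_right₀ hp1.le (by omega)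
  have : con p N (f.eval (c + s')) (f.eval (c + s)) := by
    change ‖_ - _‖ ≤ _
    rw [e1, norm_mul]
    calc _ ≤ (p : ℝ) ^ (-((M : ℤ) + 1)) * ((p : ℝ) ^ e * ‖f.eval (c + s)‖) := by gcongr
      _ = (p : ℝ) ^ (-((M : ℤ) + 1)) * (p : ℝ) ^ e * ‖f.eval (c + s)‖ := by ring
      _ ≤ _ := by gcongr
  exact congrArg Additive.ofMul ((Con.eq _).2 this)

end Pool.Agent.Lib.PadicQE
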