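import Pool.Agent.Lib.PadicQE.Basic

/-!
Sums with bounded cancellation have definable leading terms.
-/

namespace Pool.Agent.Lib.PadicQE

variable {p : ℕ} [hp : Fact p.Prime] {B M : Type} [AddCommMonoid M] [AddMonoid.FG M]
  {F : Set (B → ℚ_[p])} {D : Set B} {f h : B → ℚ_[p]}

theorem DefFun.near (hf : DefFun p F D f) (hh : DefFun p F D h) (a : ℚ_[p]) (k : ℤ) :
    Def p F {x : B × M | x.1 ∈ D ∧ ‖f x.1 - a * h x.1‖ ≤ (p : ℝ) ^ (-k) * ‖h x.1‖} := by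
  rcases le_or_gt ‖a‖ ((p : ℝ) ^ (-k)) with ha | ha
  · refine (hf.norm_le' hh (-k)).congr fun b _ => and_congr_right fun _ => ?_
    have h1 : ‖a * h b‖ ≤ (p : ℝ) ^ (-k) * ‖h b‖ := by
      rw [norm_mul]
      gcongr
    refine ⟨fun h2 => ?_, fun h2 => ?_⟩
    · rw [← sub_add_cancel (f b) (a * h b)]
      exact (Padic.nonarchimedean _ _).trans (max_le h2 h1)
    · rw [sub_eq_add_neg]
      exact (Padic.nonarchimedean _ _).trans (max_le h2 (by rwa [norm_neg]))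
  · have h0 : a ≠ 0 := norm_pos_iff.1 ((zpow_pos p_pos _).trans ha)
    rw [Padic.norm_eq_zpow_neg_valuation h0, zpow_lt_zpow_iff_right₀ one_lt_p] at ha
    obtain ⟨N, hN⟩ := Int.eq_ofNat_of_zero_le (show 0 ≤ k - a.valuation - 1 by omega)
    refine (hf.code_eq ((DefFun.const hf.defSet a).mul hh) N).congr
      fun b _ => and_congr_right fun _ => ?_
    rw [code_eq_iff, norm_mul, Padic.norm_eq_zpow_neg_valuation h0, ← mul_assoc,
      ← zpow_add₀ p_pos.ne', show -((N : ℤ) + 1) + -a.valuation = -k by omega]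

variable {ι : Type} [Fintype ι] {g : ι → B → ℚ_[p]}

theorem def_sum_near (hg : ∀ i, DefFun p F D (g i)) (hh : DefFun p F D h) (e k : ℕ) (a : ℚ_[p]) :
    Def p F {x : B × M | x.1 ∈ D ∧ (∀ i, ‖g i x.1‖ ≤ (p : ℝ) ^ e * ‖h x.1‖) ∧
      ‖∑ i, g i x.1 - a * h x.1‖ ≤ (p : ℝ) ^ (-(k : ℤ)) * ‖h x.1‖} := by
  have hp0 : (p : ℚ_[p]) ≠ 0 := Nat.cast_ne_zero.2 hp.out.ne_zero
  have h1 : Def p F {x : B × M | ((x.1 ∈ D ∧ h x.1 = 0) ∧ ∀ i, x.1 ∈ D ∧ g i x.1 = 0) ∨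
      ∃ c : ι → Fin (p ^ (e + k)), ‖∑ i, ((c i : ℕ) : ℚ_[p]) / p ^ e - a‖ ≤ (p : ℝ) ^ (-(k : ℤ)) ∧
        x.1 ∈ D ∧ ∀ i, x.1 ∈ D ∧ ‖g i x.1 - ((c i : ℕ) : ℚ_[p]) / p ^ e * h x.1‖ ≤
          (p : ℝ) ^ (-(k : ℤ)) * ‖h x.1‖} :=
    (hh.eq_zero.and (Def.forall fun i => (hg i).eq_zero)).or (Def.exists fun c =>
      (Def.const _).and (hh.defSet.def.and (Def.forall fun i => (hg i).near hh _ _)))
  have hP := p_pos (p := p)
  refine h1.congr fun b _ => ⟨fun ⟨hb, h2, h3⟩ => ?_, ?_⟩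
  · rcases eq_or_ne (h b) 0 with h0 | h0
    · exact Or.inl ⟨⟨hb, h0⟩, fun i => ⟨hb, by simpa [h0] using h2 i⟩⟩
    have h4 := norm_pos_iff.2 h0
    have h5 : ∀ i, ∃ c : Fin (p ^ (e + k)), ‖g i b - ((c : ℕ) : ℚ_[p]) / p ^ e * h b‖ ≤
        (p : ℝ) ^ (-(k : ℤ)) * ‖h b‖ := fun i => by
      obtain ⟨c, hc, h6⟩ := exists_nat_near (g i b * (p : ℚ_[p]) ^ e / h b) (by
        rw [norm_div, norm_mul, norm_pow, Padic.norm_p, inv_pow, div_le_one h4,
          ← div_eq_mul_inv, div_le_iff₀ (by positivity), mul_comm]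
        exact h2 i) (e + k)
      refine ⟨⟨c, hc⟩, ?_⟩
      rw [show g i b - (c : ℚ_[p]) / p ^ e * h b = (g i b * p ^ e / h b - c) / p ^ e * h b by
        field_simp, norm_mul, norm_div, norm_pow, Padic.norm_p, inv_pow, div_inv_eq_mul]
      gcongr
      refine (mul_le_mul_of_nonneg_right h6 (by positivity)).trans_eq ?_
      rw [← zpow_natCast, ← zpow_add₀ hP.ne']
      congr 1
      push_cast
      ring
    choose c hc using h5
    refine Or.inr ⟨c, le_of_mul_le_mul_right ?_ h4, hb, fun i => ⟨hb, hc i⟩⟩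
    rw [← norm_mul, show (∑ i, ((c i : ℕ) : ℚ_[p]) / p ^ e - a) * h b = (∑ i, g i b - a * h b) +
      -∑ i, (g i b - ((c i : ℕ) : ℚ_[p]) / p ^ e * h b) by
        rw [Finset.sum_sub_distrib, ← Finset.sum_mul]; ring]
    refine (Padic.nonarchimedean _ _).trans (max_le h3 ?_)
    rw [norm_neg]
    exact IsUltrametricDist.norm_sum_le_of_forall_le_of_nonneg (by positivity) fun i _ => hc i
  · rintro (⟨⟨hb, h0⟩, h2⟩ | ⟨c, h2, hb, h3⟩)
    · simp only at hb h0 h2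
      simp [hb, h0, fun i => (h2 i).2]
    · simp only at hb h3
      refine ⟨hb, fun i => ?_, ?_⟩
      · change ‖g i b‖ ≤ _ * ‖h b‖
        rw [← sub_add_cancel (g i b) (((c i : ℕ) : ℚ_[p]) / p ^ e * h b)]
        refine (Padic.nonarchimedean _ _).trans (max_le ((h3 i).2.trans ?_) ?_)
        · gcongr
          rw [← zpow_natCast]
          exact zpow_le_zpow_right₀ one_lt_p.le (by omega)
        · rw [norm_mul, norm_div, norm_pow, Padic.norm_p, inv_pow, div_inv_eq_mul]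
          gcongr
          exact mul_le_of_le_one_left (by positivity)
            (by exact_mod_cast Padic.norm_int_le_one ((c i : ℕ) : ℤ))
      · change ‖∑ i, g i b - a * h b‖ ≤ _ * ‖h b‖
        rw [show ∑ i, g i b - a * h b = (∑ i, ((c i : ℕ) : ℚ_[p]) / p ^ e - a) * h b +
          ∑ i, (g i b - ((c i : ℕ) : ℚ_[p]) / p ^ e * h b) by
            rw [Finset.sum_sub_distrib, ← Finset.sum_mul]; ring]
        refine (Padic.nonarchimedean _ _).trans (max_le ?_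
          (IsUltrametricDist.norm_sum_le_of_forall_le_of_nonneg (by positivity)
            fun i _ => (h3 i).2))
        rw [norm_mul]
        gcongr

theorem defSet_nc (hD : DefSet p F D) (hg : ∀ i, DefFun p F D (g i)) (e : ℕ) :
    DefSet p F {b | b ∈ D ∧ ∀ i, ‖g i b‖ ≤ (p : ℝ) ^ e * ‖∑ i, g i b‖} := by
  have h1 : Def p F {x : B × Unit | x.1 ∈ D ∧ ∀ j, (x.1 ∈ D ∧
      (∀ i, ‖g i x.1‖ ≤ (p : ℝ) ^ 0 * ‖g j x.1‖) ∧ ‖∑ i, g i x.1 - 0 * g j x.1‖ ≤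
        (p : ℝ) ^ (-((e + 1 : ℕ) : ℤ)) * ‖g j x.1‖) → x.1 ∈ D ∧ g j x.1 = 0} :=
    hD.def.and (Def.forall fun j => (def_sum_near hg (hg j) 0 (e + 1) 0).imp (hg j).eq_zero)
  have hP := p_pos (p := p)
  refine h1.congr fun b _ => and_congr_right fun hb => ?_
  simp only [hb, true_and, pow_zero, one_mul, zero_mul, sub_zero]
  refine ⟨fun h2 j ⟨_, h3⟩ => ?_, fun h2 i => ?_⟩
  · by_contra h0
    have h4 := norm_pos_iff.2 h0
    have h5 := (h2 j).trans (mul_le_mul_of_nonneg_left h3 (by positivity))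
    rw [← mul_assoc, ← zpow_natCast, ← zpow_add₀ hP.ne', le_mul_iff_one_le_left h4,
      one_le_zpow_iff_right₀ one_lt_p] at h5
    omega
  · obtain ⟨j, -, hj⟩ := Finset.exists_max_image Finset.univ (fun i => ‖g i b‖)
      ⟨i, Finset.mem_univ i⟩
    refine (hj i (Finset.mem_univ i)).trans ?_
    rcases eq_or_ne (g j b) 0 with h0 | h0
    · rw [h0, norm_zero]
      positivity
    have h4 := norm_pos_iff.2 h0
    have h5 := lt_of_not_ge fun h => h0 (h2 j ⟨fun i => hj i (Finset.mem_univ i), h⟩)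
    have h6 := norm_pos_iff.1 ((mul_pos (zpow_pos hP _) h4).trans h5)
    rw [Padic.norm_eq_zpow_neg_valuation h0, Padic.norm_eq_zpow_neg_valuation h6] at h5 ⊢
    rw [← zpow_add₀ hP.ne', zpow_lt_zpow_iff_right₀ one_lt_p] at h5
    rw [← zpow_natCast, ← zpow_add₀ hP.ne', zpow_le_zpow_iff_right₀ one_lt_p]
    omega

theorem defFun_sum (hD : DefSet p F D) (hg : ∀ i, DefFun p F D (g i)) (e : ℕ) :
    DefFun p F {b | b ∈ D ∧ ∀ i, ‖g i b‖ ≤ (p : ℝ) ^ e * ‖∑ i, g i b‖} fun b => ∑ i, g i b := by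
  intro N
  have hF : ∀ f ∈ F, (fun x : B × ℚ_[p] => f x.1) ∈ plus p F := fun f hf => Or.inl ⟨f, hf, rfl⟩
  have hD' : DefSet p (plus p F) (Prod.fst ⁻¹' D) := hD.comap Prod.fst (AddMonoidHom.id _) hF
  have hz : DefFun p (plus p F) (Prod.fst ⁻¹' D) Prod.snd := DefFun.of_mem hD' (Or.inr rfl)
  refine ((hz N).and (def_sum_near (fun i => (hg i).comap Prod.fst hF) hz e (N + 1) 1)).elim.congr
    fun b u => ⟨fun ⟨⟨hb, h1⟩, h2⟩ => ⟨∑ i, g i b, ⟨hb, h2⟩, hb, h1, ?_⟩, ?_⟩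
  · have := p_pos (p := p)
    simp only [one_mul, sub_self, norm_zero]
    positivity
  · rintro ⟨z, ⟨hb, h1⟩, -, h2, h3⟩
    have h4 : code p N (∑ i, g i b) = code p N z := code_eq_iff.2 (by simpa using h3)
    exact ⟨⟨hb, fun i => norm_eq_of_code h4 ▸ h2 i⟩, h4.trans h1⟩

end Pool.Agent.Lib.PadicQE
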