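import Pool.Agent.Lib.PadicQE.Basic
import Pool.Agent.Lib.PadicQE.Prep
import Pool.Agent.Lib.PadicQE.Sum

/-!
Elimination of field quantifiers over the p-adic numbers.
-/

namespace Pool.Agent.Lib.PadicQE

open Polynomial

theorem map_hasse {R S : Type} [CommRing R] [CommRing S] (φ : R →+* S) (j : ℕ) (f : R[X]) :
    (hasseDeriv j f).map φ = hasseDeriv j (f.map φ) := by
  ext n
  simp [hasseDeriv_coeff]

theorem eval_add_eq {R : Type} [CommRing R] (f : R[X]) {d : ℕ} (hf : f.natDegree ≤ d) (c s : R) :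
    f.eval (c + s) = ∑ j : Fin (d + 1), (hasseDeriv j f).eval c * s ^ (j : ℕ) := by
  rw [add_comm c, ← taylor_eval, eval_eq_sum_range' (n := d + 1)
    (by rw [natDegree_taylor]; omega), Finset.sum_range]
  simp only [taylor_coeff]

theorem pseudo_div {R : Type} [CommRing R] {d : ℕ} (P : R[X]) (hP : P.natDegree ≤ d + 1)
    (q : R[X]) : ∃ (m : ℕ) (u r : R[X]), C (P.coeff (d + 1)) ^ m * q = u * P + r ∧
      r.natDegree ≤ d := by
  induction q using Polynomial.induction_on with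
  | C a => exact ⟨0, 0, C a, by simp, by simp⟩
  | add q q' h h' =>
    obtain ⟨m, u, r, h1, h2⟩ := h
    obtain ⟨m', u', r', h1', h2'⟩ := h'
    refine ⟨m + m', C (P.coeff (d + 1)) ^ m' * u + C (P.coeff (d + 1)) ^ m * u',
      C (P.coeff (d + 1)) ^ m' * r + C (P.coeff (d + 1)) ^ m * r', by
        linear_combination C (P.coeff (d + 1)) ^ m' * h1 + C (P.coeff (d + 1)) ^ m * h1', ?_⟩
    rw [← C_pow, ← C_pow]
    exact natDegree_add_le_of_degree_le ((natDegree_C_mul_le _ _).trans h2)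
      ((natDegree_C_mul_le _ _).trans h2')
  | monomial n a h =>
    obtain ⟨m, u, r, h1, h2⟩ := h
    refine ⟨m + 1, C (P.coeff (d + 1)) * X * u + C (r.coeff d),
      C (P.coeff (d + 1)) * (r * X) - C (r.coeff d) * P, by
        linear_combination C (P.coeff (d + 1)) * X * h1, ?_⟩
    refine natDegree_le_iff_coeff_eq_zero.2 fun k hk => ?_
    obtain ⟨k, rfl⟩ := Nat.exists_eq_add_one_of_ne_zero (show k ≠ 0 by omega)
    rw [coeff_sub, coeff_C_mul, coeff_C_mul, coeff_mul_X]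
    rcases (show d ≤ k by omega).eq_or_lt with rfl | hk
    · ring
    · rw [coeff_eq_zero_of_natDegree_lt (h2.trans_lt hk),
        coeff_eq_zero_of_natDegree_lt (hP.trans_lt (show d + 1 < k + 1 by omega))]
      ring

variable {p : ℕ} [hp : Fact p.Prime]

theorem nearest {T : Set ℚ_[p][X]} (hT : T.Finite) (t : ℚ_[p]) :
    ∃ c, (c = 0 ∨ ∃ Q ∈ T, Q ≠ 0 ∧ Q.IsRoot c) ∧
      ∀ Q ∈ T, Q ≠ 0 → ∀ r, Q.IsRoot r → ‖t - c‖ ≤ ‖t - r‖ := by
  have h1 : {c : ℚ_[p] | c = 0 ∨ ∃ Q ∈ T, Q ≠ 0 ∧ Q.IsRoot c}.Finite := by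
    refine (Set.finite_singleton 0).union (((hT.subset (Set.sep_subset T (· ≠ 0))).biUnion
      fun Q hQ => Q.finite_setOfPred_isRoot hQ.2).subset ?_)
    rintro c ⟨Q, h1, h2, h3⟩
    exact Set.mem_biUnion (x := Q) ⟨h1, h2⟩ h3
  obtain ⟨c, h2, h3⟩ := Set.exists_min_image _ (fun c => ‖t - c‖) h1 ⟨0, Or.inl rfl⟩
  exact ⟨c, h2, fun Q hQ h0 r hr => h3 r (Or.inr ⟨Q, hQ, h0, hr⟩)⟩

variable {B M : Type} [AddCommMonoid M] [AddMonoid.FG M] {F : Subring (B → ℚ_[p])}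

/-- No large cancellation in the Taylor expansion around the centre. -/
def NC (F : Subring (B → ℚ_[p])) (e : ℕ) (r : F[X]) : Set ((B × ℚ_[p]) × ℚ_[p]) :=
  {x | ∀ j, ‖(hasseDeriv j (r.map (ev p F x.1.1))).eval x.1.2 * x.2 ^ j‖ ≤
    (p : ℝ) ^ e * ‖(r.map (ev p F x.1.1)).eval (x.1.2 + x.2)‖}

theorem defFun_term (r : F[X]) (j : ℕ) {D : Set ((B × ℚ_[p]) × ℚ_[p])}
    (hD : DefSet p (plus p (adj p F : Set (B × ℚ_[p] → ℚ_[p]))) D) :
    DefFun p (plus p (adj p F : Set (B × ℚ_[p] → ℚ_[p]))) D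
      fun x => (hasseDeriv j (r.map (ev p F x.1.1))).eval x.1.2 * x.2 ^ j := by
  refine DefFun.mul (DefFun.of_mem hD (Or.inl ⟨_, poly_mem_adj (hasseDeriv j r), ?_⟩))
    ((DefFun.of_mem hD (Or.inr rfl)).pow j)
  simp only [map_hasse]

theorem defFun_eval (e : ℕ) (r : F[X]) :
    DefFun p (plus p (adj p F : Set (B × ℚ_[p] → ℚ_[p]))) (NC F e r)
      fun x => (r.map (ev p F x.1.1)).eval (x.1.2 + x.2) := by
  have h1 : ∀ x : (B × ℚ_[p]) × ℚ_[p], (r.map (ev p F x.1.1)).eval (x.1.2 + x.2) = _ :=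
    fun x => eval_add_eq _ (natDegree_map_le (f := ev p F x.1.1) (p := r)) _ _
  have h2 := defFun_sum DefSet.univ
    (fun j : Fin (r.natDegree + 1) => defFun_term r j DefSet.univ) e
  simp only [← h1] at h2
  convert h2 using 1
  refine Set.ext fun x => ⟨fun h => ⟨trivial, fun j => h j⟩, fun h j => ?_⟩
  rcases le_or_gt j r.natDegree with hj | hj
  · exact h.2 ⟨j, by omega⟩
  · rw [hasseDeriv_eq_zero_of_lt_natDegree _ _ (natDegree_map_le.trans_lt hj), eval_zero,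
      zero_mul, norm_zero]
    have := p_pos (p := p)
    positivity

theorem def_codes {B : Type} {G : Set (B → ℚ_[p])} {D : Set B} (hD : DefSet p G D) {σ : Type}
    [Finite σ] {g : σ → B → ℚ_[p]} (hg : ∀ i, DefFun p G D (g i)) {N : ℕ}
    {S : Set ((σ → RV p N) × M)} (hS : IsSemilinearSet S) :
    Def p G {x : B × M | x.1 ∈ D ∧ ((fun i => code p N (g i x.1)), x.2) ∈ S} :=
  Def.sub (G := Set.range g) ⟨σ, inferInstance, g, N, S, fun i => ⟨i, rfl⟩, hS,
    fun _ _ => Iff.rfl⟩ hD (by rintro _ ⟨i, rfl⟩; exact hg i)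

theorem centres {T : Set F[X]} (hT : T.Finite) {Z : Set ((B × ℚ_[p]) × M)}
    (hZ : Def p (adj p F : Set (B × ℚ_[p] → ℚ_[p])) Z)
    (ih : ∀ Q ∈ T, Def p (F : Set (B → ℚ_[p])) {x : B × M | ∃ c, Q.map (ev p F x.1) ≠ 0 ∧
      (Q.map (ev p F x.1)).IsRoot c ∧ ((x.1, c), x.2) ∈ Z}) :
    Def p (F : Set (B → ℚ_[p])) {x : B × M | ∃ c, (c = 0 ∨ ∃ Q ∈ map (ev p F x.1) '' T,
      Q ≠ 0 ∧ Q.IsRoot c) ∧ ((x.1, c), x.2) ∈ Z} := by
  refine ((hZ.comap (fun b => (b, 0)) (AddMonoidHom.id M)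
    (adj_comp _ (fun _ h => h) F.zero_mem)).or (Def.bexists hT ih)).congr fun b n => ⟨?_, ?_⟩
  · rintro ⟨c, rfl | ⟨_, ⟨Q, h1, rfl⟩, h2, h3⟩, h4⟩
    exacts [Or.inl h4, Or.inr ⟨Q, h1, c, h2, h3, h4⟩]
  · rintro (h | ⟨Q, h1, c, h2, h3, h4⟩)
    exacts [⟨0, Or.inl rfl, h⟩, ⟨c, Or.inr ⟨_, ⟨Q, h1, rfl⟩, h2, h3⟩, h4⟩]

/-- The Hasse derivatives of the members of `T`. -/
def ders {R : Type} [CommRing R] (d : ℕ) (T : Set R[X]) : Set R[X] :=
  Set.image2 (fun j f => hasseDeriv j f) (Set.Iic d) T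

theorem ders_finite {R : Type} [CommRing R] (d : ℕ) {T : Set R[X]} (hT : T.Finite) :
    (ders d T).Finite := (Set.finite_Iic d).image2 _ hT

theorem ders_deg {R : Type} [CommRing R] {d : ℕ} {T : Set R[X]} (hT : ∀ f ∈ T, f.natDegree ≤ d) :
    ∀ f ∈ ders d T, f.natDegree ≤ d := by
  rintro _ ⟨j, -, f, hf, rfl⟩
  exact (natDegree_hasseDeriv_le f j).trans ((Nat.sub_le _ _).trans (hT f hf))

theorem mem_nc {d e : ℕ} (he : ∀ f : ℚ_[p][X], f.natDegree ≤ d → ∀ (k : ℕ) (c t : ℚ_[p]),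
      (∀ j, k ≤ j → hasseDeriv j f ≠ 0 → ∀ r, (hasseDeriv j f).IsRoot r → ‖t - c‖ ≤ ‖t - r‖) →
      ∀ j, k ≤ j → ‖(hasseDeriv j f).eval c * (t - c) ^ j‖ ≤
        (p : ℝ) ^ e * ‖(hasseDeriv k f).eval t * (t - c) ^ k‖)
    {d' : ℕ} (hd : d' ≤ d) {T : Set F[X]} {b : B} {c t : ℚ_[p]}
    (hc : ∀ Q ∈ map (ev p F b) '' ders d' T, Q ≠ 0 → ∀ r, Q.IsRoot r → ‖t - c‖ ≤ ‖t - r‖)
    {r : F[X]} (hr : r ∈ T) (hr' : r.natDegree ≤ d') : ((b, c), t - c) ∈ NC F e r := fun j => by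
  have := he (r.map (ev p F b)) (natDegree_map_le.trans (hr'.trans hd)) 0 c t (fun j _ h0 =>
    hc _ ⟨_, ⟨j, le_of_not_gt fun h => h0 (hasseDeriv_eq_zero_of_lt_natDegree _ _
      ((natDegree_map_le.trans hr').trans_lt h)), r, hr, rfl⟩, map_hasse _ _ _⟩ h0) j j.zero_le
  simpa using this

theorem qe_alg (d : ℕ) : ∀ P : F[X], P.natDegree ≤ d → ∀ X : Set ((B × ℚ_[p]) × M),
    Def p (adj p F : Set (B × ℚ_[p] → ℚ_[p])) X →
    Def p (F : Set (B → ℚ_[p])) {x : B × M | ∃ t, P.map (ev p F x.1) ≠ 0 ∧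
      (P.map (ev p F x.1)).IsRoot t ∧ ((x.1, t), x.2) ∈ X} := by
  induction d with
  | zero =>
    intro P hP X _
    refine Def.empty.congr fun b n => ⟨?_, False.elim⟩
    rintro ⟨t, h1, h2, -⟩
    rw [eq_C_of_natDegree_le_zero (natDegree_map_le.trans hP)] at h1 h2
    exact h1 (by rw [show (P.map (ev p F b)).coeff 0 = 0 by simpa using h2, C_0])
  | succ d ih =>
    intro P hP X hX
    have hlow := ih (P.erase (d + 1)) (natDegree_le_iff_coeff_eq_zero.2 fun k hk => by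
      rcases eq_or_ne k (d + 1) with rfl | h
      · exact erase_same _ _
      · rw [erase_ne _ h, coeff_eq_zero_of_natDegree_lt (hP.trans_lt (by omega))]) X hX
    obtain ⟨σ, _, f, N, S, h1, h2, h3⟩ := hX
    choose q hq using fun i => mem_adj_iff.1 (h1 i)
    choose m u r hr hr' using fun i => pseudo_div P hP (q i)
    obtain ⟨e, he⟩ := prep p (d + 1)
    have hP1 : (hasseDeriv 1 P).natDegree ≤ d :=
      (natDegree_hasseDeriv_le P 1).trans (by omega)
    let G : Set ((B × ℚ_[p]) × ℚ_[p] → ℚ_[p]) := plus p (adj p F : Set (B × ℚ_[p] → ℚ_[p]))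
    let a : (B × ℚ_[p]) × ℚ_[p] → ℚ_[p] := fun x => ev p F x.1.1 (P.coeff (d + 1))
    have ha : a ∈ G := Or.inl ⟨_, fst_mem_adj (P.coeff (d + 1)).2, rfl⟩
    have hn := defFun_eval e (hasseDeriv 1 P)
    let D : Set ((B × ℚ_[p]) × ℚ_[p]) := {x | ¬ (x ∈ Set.univ ∧ a x = 0) ∧
      (∀ i, x ∈ NC F e (r i)) ∧ x ∈ NC F e (hasseDeriv 1 P) ∧
      (∀ j : Fin (d + 1 + 1), ‖(hasseDeriv j (P.map (ev p F x.1.1))).eval x.1.2 * x.2 ^ (j : ℕ)‖ ≤
        (p : ℝ) ^ e * ‖((hasseDeriv 1 P).map (ev p F x.1.1)).eval (x.1.2 + x.2) * x.2‖) ∧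
      ‖∑ j : Fin (d + 1 + 1), (hasseDeriv j (P.map (ev p F x.1.1))).eval x.1.2 * x.2 ^ (j : ℕ) -
        0 * (((hasseDeriv 1 P).map (ev p F x.1.1)).eval (x.1.2 + x.2) * x.2)‖ ≤
        (p : ℝ) ^ (-((N + e + 1 : ℕ) : ℤ)) *
          ‖((hasseDeriv 1 P).map (ev p F x.1.1)).eval (x.1.2 + x.2) * x.2‖}
    have hD : DefSet p G D := (DefFun.of_mem DefSet.univ ha).eq_zero.not.and
      (Def.and (Def.forall fun i => (defFun_eval e (r i)).defSet)
        (def_sum_near (fun j : Fin (d + 1 + 1) => defFun_term P j hn.defSet)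
          (hn.mul (DefFun.of_mem hn.defSet (Or.inr rfl))) e (N + e + 1) 0))
    have hg : ∀ i, DefFun p G D fun x =>
        ((r i).map (ev p F x.1.1)).eval (x.1.2 + x.2) / a x ^ m i := fun i =>
      ((defFun_eval e (r i)).restrict hD fun x hx => hx.2.1 i).div
        ((DefFun.of_mem hD ha).pow (m i)) fun x hx =>
        have h0 : a x ^ m i ≠ 0 := pow_ne_zero _ fun h => hx.1 ⟨trivial, h⟩
        ⟨h0, mul_div_cancel₀ _ h0⟩
    have hZ := (def_codes hD hg h2).elim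
    let T : Set F[X] := ders d (insert (hasseDeriv 1 P) (Set.range r)) ∪
      (fun j => hasseDeriv (j + 1) P) '' Set.Iic d
    have hT : T.Finite := (ders_finite d ((Set.finite_range r).insert _)).union
      ((Set.finite_Iic d).image _)
    have hTd : ∀ Q ∈ T, Q.natDegree ≤ d := by
      rintro Q (hQ | ⟨j, -, rfl⟩)
      · refine ders_deg ?_ Q hQ
        rintro _ (rfl | ⟨i, rfl⟩)
        exacts [hP1, hr' i]
      · exact (natDegree_hasseDeriv_le P _).trans (by omega)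
    have hq' : ∀ b t i, ev p F b (P.coeff (d + 1)) ≠ 0 → (P.map (ev p F b)).IsRoot t →
        ((r i).map (ev p F b)).eval t / ev p F b (P.coeff (d + 1)) ^ m i = f i (b, t) := by
      intro b t i h0 ht
      have := congrArg (fun g => (g.map (ev p F b)).eval t) (hr i)
      simp only [Polynomial.map_mul, Polynomial.map_pow, map_C, eval_mul, eval_pow, eval_C,
        Polynomial.map_add, eval_add, ht.eq_zero, mul_zero, zero_add] at this
      rw [← this, hq i, mul_div_cancel_left₀ _ (pow_ne_zero _ h0)]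
    have hA : Def p (F : Set (B → ℚ_[p])) {x : B × M | x.1 ∈ Set.univ ∧
        ev p F x.1 (P.coeff (d + 1)) = 0} :=
      (DefFun.of_mem DefSet.univ (P.coeff (d + 1)).2).eq_zero
    refine ((hA.and hlow).or (centres hT hZ fun Q hQ => ih Q (hTd Q hQ) _ hZ)).congr fun b n => ?_
    simp only [Set.mem_ofPred_eq, Set.mem_univ, true_and]
    by_cases h0 : ev p F b (P.coeff (d + 1)) = 0
    · have h4 : (P.erase (d + 1)).map (ev p F b) = P.map (ev p F b) := by
        ext k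
        rcases eq_or_ne k (d + 1) with rfl | h
        · rw [coeff_map, coeff_map, erase_same, map_zero, h0]
        · rw [coeff_map, coeff_map, erase_ne _ h]
      rw [h4]
      refine ⟨fun h => Or.inl ⟨h0, h⟩, ?_⟩
      rintro (h | ⟨c, -, s, h, -⟩)
      exacts [h.2, (h.1 ⟨trivial, h0⟩).elim]
    have hdeg : (P.map (ev p F b)).natDegree ≤ d + 1 := natDegree_map_le.trans hP
    refine ⟨?_, ?_⟩
    · rintro ⟨t, -, ht, h4⟩
      obtain ⟨c, hc, hc'⟩ := nearest (hT.image (map (ev p F b))) t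
      have hc1 := fun Q (hQ : Q ∈ map (ev p F b) '' ders d (insert (hasseDeriv 1 P)
        (Set.range r))) => hc' Q (Set.image_mono Set.subset_union_left hQ)
      have h5 := he _ hdeg 1 c t fun j hj hj0 => by
        obtain ⟨j, rfl⟩ := Nat.exists_eq_add_one_of_ne_zero (show j ≠ 0 by omega)
        refine hc' _ ⟨_, Or.inr ⟨j, ?_, rfl⟩, map_hasse _ _ _⟩ hj0
        exact le_of_not_gt fun h : d < j =>
          hj0 (hasseDeriv_eq_zero_of_lt_natDegree _ _ (hdeg.trans_lt (by omega)))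
      have h6 := eval_add_eq _ hdeg c (t - c)
      rw [add_sub_cancel, ht.eq_zero] at h6
      have hP := p_pos (p := p)
      refine Or.inr ⟨c, hc, t - c, ⟨fun h => h0 h.2, fun i => mem_nc he d.le_succ hc1
        (Set.mem_insert_of_mem _ ⟨i, rfl⟩) (hr' i),
        mem_nc he d.le_succ hc1 (Set.mem_insert _ _) hP1, ?_, ?_⟩, ?_⟩
      · simp only [add_sub_cancel, map_hasse]
        rw [pow_one] at h5
        refine Fin.cases ?_ fun j => h5 _ (by simp)
        rw [Fin.sum_univ_succ, eq_comm, add_eq_zero_iff_eq_neg] at h6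
        rw [h6, norm_neg]
        exact IsUltrametricDist.norm_sum_le_of_forall_le_of_nonneg (by positivity)
          fun j _ => h5 _ (by simp)
      · simp only [← h6, zero_mul, sub_zero, norm_zero]
        positivity
      · simp only [a, add_sub_cancel, fun i => hq' b t i h0 ht]
        exact (h3 _ _).1 h4
    · rintro (h | ⟨c, -, s, ⟨-, h4, -, h5, h6⟩, h7⟩)
      · exact (h0 h.1).elim
      simp only [map_hasse, zero_mul, sub_zero, ← eval_add_eq _ hdeg] at h5 h6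
      obtain ⟨t, ht, h8⟩ := approx_root p (P.map (ev p F b)) c s e (N + e) (by omega)
        (fun j _ => by
          rcases le_or_gt j (d + 1) with hj | hj
          · exact h5 ⟨j, by omega⟩
          · rw [hasseDeriv_eq_zero_of_lt_natDegree _ _ (hdeg.trans_lt hj), eval_zero, zero_mul,
              norm_zero]
            have := p_pos (p := p)
            positivity) (by simpa using h6)
      refine ⟨t, fun h => h0 (by rw [← coeff_map, h, coeff_zero]), ht, (h3 _ _).2 ?_⟩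
      convert h7 using 3 with i
      have h9 := code_stable p _ c s (t - c) e N (N + e) le_rfl (h4 i) (by rwa [sub_sub])
      rw [add_sub_cancel] at h9
      rw [← hq' b t i h0 ht, div_eq_mul_inv, div_eq_mul_inv, code_mul, code_mul, h9]

theorem qe {B M : Type} [AddCommMonoid M] [AddMonoid.FG M] {F : Subring (B → ℚ_[p])}
    {X : Set ((B × ℚ_[p]) × M)} (hX : Def p (adj p F : Set (B × ℚ_[p] → ℚ_[p])) X) :
    Def p (F : Set (B → ℚ_[p])) {x : B × M | ∃ t, ((x.1, t), x.2) ∈ X} := by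
  obtain ⟨σ, _, f, N, S, h1, h2, h3⟩ := hX
  choose q hq using fun i => mem_adj_iff.1 (h1 i)
  obtain ⟨d, hd⟩ := (Set.finite_range fun i => (q i).natDegree).bddAbove
  have hd' : ∀ i, (q i).natDegree ≤ d := fun i => hd ⟨i, rfl⟩
  obtain ⟨e, he⟩ := prep p d
  have hD : DefSet p (plus p (adj p F : Set (B × ℚ_[p] → ℚ_[p]))) {x | ∀ i, x ∈ NC F e (q i)} :=
    Def.forall fun i => (defFun_eval e (q i)).defSet
  have hZ := (def_codes hD (fun i => (defFun_eval e (q i)).restrict hD fun x hx => hx i) h2).elim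
  have hT := ders_finite d (Set.finite_range q)
  refine (centres hT hZ fun Q _ => qe_alg _ Q le_rfl _ hZ).congr fun b n => ⟨?_, ?_⟩
  · rintro ⟨t, ht⟩
    obtain ⟨c, hc, hc'⟩ := nearest (hT.image (map (ev p F b))) t
    refine ⟨c, hc, t - c, fun i => mem_nc he le_rfl hc' ⟨i, rfl⟩ (hd' i), ?_⟩
    simpa only [add_sub_cancel, hq] using (h3 _ _).1 ht
  · rintro ⟨c, -, s, -, h⟩
    exact ⟨c + s, (h3 _ _).2 (by simpa only [hq] using h)⟩

end Pool.Agent.Lib.PadicQE
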